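import Pool.Agent.W262.SQ.Stm
import Pool.Agent.W409.QF.AVA

/-!
# Project SQ: AVAG (adapted from helper409)
-/

set_option autoImplicit false

namespace Pool.Agent.W262.SQ

open Finset Polynomial Pool.Agent.W262.RK Pool.Agent.W307.RT Pool.Agent.W307.RS
  Pool.Agent.W307.QF Pool.Agent.W409.QF

theorem ava_of {R : ℤ → ℤ → ℝ} (hR : ∀ A B, 0 ≤ R A B) (h1 : AVGAG R) (h2 : Pool.Agent.W307.QF.CNTE)
    (h3 : Pool.Agent.W307.QF.MERL) (h4 : Pool.Agent.W307.QF.COP) : AVAG R := by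
  intro J _ _ P e a k0 B hD ha ha2 hk0
  classical
  obtain ⟨p0, hp0⟩ := hD.nz'
  have hcop : ∀ j l, ∃ q : ℕ, j ≠ l → ∀ p : ℕ, p.Prime → q < p → ∀ x : ℤ,
      ¬ ((p : ℤ) ∣ (P j).eval x ∧ (p : ℤ) ∣ (P l).eval x) := by
    intro j l
    by_cases hjl : j ≠ l
    · obtain ⟨q, hq⟩ := h4 (P j) (P l) (hD.cop j l hjl)
      exact ⟨q, fun _ => hq⟩
    · exact ⟨0, fun h => absurd h hjl⟩
  choose q1 hq1 using hcop
  choose q2 hq2 using fun j => h4 (P j) (derivative (P j)) (hD.sep j)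
  set n := Fintype.card J with hn
  obtain ⟨c, hc⟩ : ∃ c, c = 2 * n := ⟨_, rfl⟩
  obtain ⟨z1, hz1⟩ : ∃ z1 : ℕ, z1 = p0 + (2 * c + 2) + ∑ j, ∑ l, q1 j l + ∑ j, q2 j := ⟨_, rfl⟩
  have hq1z : ∀ j l, q1 j l ≤ z1 := by
    intro j l
    have e1 := single_le_sum (f := fun l => q1 j l) (fun _ _ => Nat.zero_le _) (mem_univ l)
    have e2 := single_le_sum (f := fun j => ∑ l, q1 j l) (fun _ _ => Nat.zero_le _) (mem_univ j)
    omega
  have hq2z : ∀ j, q2 j ≤ z1 := by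
    intro j
    have e2 := single_le_sum (f := fun j => q2 j) (fun _ _ => Nat.zero_le _) (mem_univ j)
    omega
  -- sizes
  obtain ⟨d, hd⟩ : ∃ d : ℕ, d = ∑ j, (P j).natDegree := ⟨_, rfl⟩
  obtain ⟨A0, hA0⟩ : ∃ A0 : ℕ, A0 = ∑ j, ∑ i ∈ range ((P j).natDegree + 1),
    ((P j).coeff i).natAbs := ⟨_, rfl⟩
  have hdj : ∀ j, (P j).natDegree ≤ d := by
    intro j
    rw [hd]
    exact single_le_sum (f := fun j => (P j).natDegree) (fun _ _ => Nat.zero_le _) (mem_univ j)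
  have hAj : ∀ j, ∑ i ∈ range ((P j).natDegree + 1), ((P j).coeff i).natAbs ≤ A0 := by
    intro j
    rw [hA0]
    exact single_le_sum (f := fun j => ∑ i ∈ range ((P j).natDegree + 1),
      ((P j).coeff i).natAbs) (fun _ _ => Nat.zero_le _) (mem_univ j)
  -- the summand
  let r : ℤ → ℝ := fun w => (R (a 0 * ∏ j, (P j).eval w)
        (a 1 * ∏ j, (P j).eval w)) ^ k0
  have hr0 : ∀ w, 0 ≤ r w := fun w => pow_nonneg (hR _ _) _
  suffices key : ∃ C2 : ℝ, ∀ θ : {θ : ℤ × ℕ // 1 ≤ θ.2 ∧ θ.1.natAbs ≤ θ.2 ^ B},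
      ∑ t ∈ (Icc 1 θ.1.2).filter (fun t : ℕ => ∀ j, (P j).eval (θ.1.1 + (t : ℤ)) ≠ 0),
        r (θ.1.1 + (t : ℤ)) ≤ C2 * (θ.1.2 : ℝ) by
    obtain ⟨C2, hC2⟩ := key
    exact ⟨C2, fun N X hX hN => hC2 ⟨(N, X), hX, hN⟩⟩
  refine h1 J ℕ {θ : ℤ × ℕ // 1 ≤ θ.2 ∧ θ.1.natAbs ≤ θ.2 ^ B}
    (fun θ => (Icc 1 θ.1.2).filter (fun t : ℕ => ∀ j, (P j).eval (θ.1.1 + (t : ℤ)) ≠ 0))
    (fun θ => θ.1.2) (fun θ t j => (P j).eval (θ.1.1 + (t : ℤ))) (fun θ => (θ.1.2 : ℝ)) a e c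
    ((B + 2) * d + 1) k0 ha ha2 hD.sq hk0 (by omega) (fun θ => θ.2.1)
    (fun θ => Nat.cast_nonneg _) (fun X0 => ?_) ⟨A0 + 2, ?_⟩ ⟨z1, fun z hz => ⟨?_, ?_⟩⟩
  · -- small scales
    refine ⟨∑ N ∈ Icc (-((X0 : ℤ) ^ B)) ((X0 : ℤ) ^ B), ∑ t ∈ Icc 1 X0, r (N + (t : ℤ)), ?_⟩
    rintro ⟨⟨N, X⟩, hX, hN⟩ hle
    simp only at hX hN hle ⊢
    have hX0 : X ^ B ≤ X0 ^ B := Nat.pow_le_pow_left hle B
    have hmem : N ∈ Icc (-((X0 : ℤ) ^ B)) ((X0 : ℤ) ^ B) := by
      rw [mem_Icc]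
      have h1 : (N.natAbs : ℤ) ≤ (X0 : ℤ) ^ B := by exact_mod_cast hN.trans hX0
      omega
    have e1 : ∑ t ∈ (Icc 1 X).filter (fun t : ℕ => ∀ j, (P j).eval (N + (t : ℤ)) ≠ 0),
        r (N + (t : ℤ)) ≤ ∑ t ∈ Icc 1 X0, r (N + (t : ℤ)) := by
      refine sum_le_sum_of_subset_of_nonneg ?_ fun t _ _ => hr0 _
      exact (filter_subset _ _).trans (Icc_subset_Icc_right hle)
    have e2 : ∑ t ∈ Icc 1 X0, r (N + (t : ℤ)) ≤
        ∑ N ∈ Icc (-((X0 : ℤ) ^ B)) ((X0 : ℤ) ^ B), ∑ t ∈ Icc 1 X0, r (N + (t : ℤ)) :=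
      single_le_sum (f := fun N : ℤ => ∑ t ∈ Icc 1 X0, r (N + (t : ℤ)))
        (fun _ _ => sum_nonneg fun _ _ => hr0 _) hmem
    have e3 : 0 ≤ ∑ N ∈ Icc (-((X0 : ℤ) ^ B)) ((X0 : ℤ) ^ B), ∑ t ∈ Icc 1 X0, r (N + (t : ℤ)) :=
      sum_nonneg fun _ _ => sum_nonneg fun _ _ => hr0 _
    have e4 : (1 : ℝ) ≤ (X : ℝ) := by exact_mod_cast hX
    exact (e1.trans e2).trans (le_mul_of_one_le_right e3 e4)
  · -- the size of the values
    rintro ⟨⟨N, X⟩, hX, hN⟩ hXA t ht j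
    simp only at hX hN hXA ht ⊢
    rw [mem_filter, mem_Icc] at ht
    have hY1 : 1 ≤ X ^ (B + 2) := Nat.one_le_pow _ _ hX
    have hx : (N + (t : ℤ)).natAbs ≤ X ^ (B + 2) := by
      have e1 : (N + (t : ℤ)).natAbs ≤ N.natAbs + t :=
        (Int.natAbs_add_le _ _).trans (by rw [Int.natAbs_natCast])
      have e2 : X ^ B ≤ X ^ (B + 1) := Nat.pow_le_pow_right hX (by omega)
      have e3 : X ≤ X ^ (B + 1) := Nat.le_self_pow (by omega) X
      have e4 : X ^ (B + 2) = X * X ^ (B + 1) := by ring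
      have e5 : 2 * X ^ (B + 1) ≤ X * X ^ (B + 1) := Nat.mul_le_mul_right _ (by omega)
      omega
    refine (natAbs_eval_le (P j) _ (X ^ (B + 2)) d hx hY1 (hdj j)).trans ?_
    calc (∑ i ∈ range ((P j).natDegree + 1), ((P j).coeff i).natAbs) * (X ^ (B + 2)) ^ d
        ≤ X * (X ^ (B + 2)) ^ d := Nat.mul_le_mul_right _ ((hAj j).trans (by omega))
      _ = X ^ ((B + 2) * d + 1) := by rw [← pow_mul, pow_succ, mul_comm]
  · -- good values
    rintro ⟨⟨N, X⟩, hX, hN⟩ t ht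
    refine ⟨(mem_filter.1 ht).2, fun p hp hzp j l hjl h => ?_⟩
    exact hq1 j l hjl p hp (lt_of_le_of_lt ((hq1z j l).trans hz) hzp) _ h
  · -- the counting
    obtain ⟨C1, hC1⟩ := h3 J e z hD.sq
    have hcsum : ∀ p, ∑ j, re (e j) p + ∑ i : Fin 0, (fun (_ : Fin 0) (_ : ℕ) => 0) i p ≤ c := by
      intro p
      have e1 : ∑ j : J, re (e j) p ≤ ∑ _j : J, 2 := sum_le_sum fun j _ => re_le _ _
      have e2 : ∑ _j : J, 2 = 2 * n := by rw [sum_const, card_univ, smul_eq_mul, mul_comm]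
      simp only [Finset.univ_eq_empty, Finset.sum_empty, add_zero]
      omega
    obtain ⟨Cc, K, y0, hC0, hK1, hcn⟩ := h2 J (Fin 0) (fun j p => re (e j) p) (fun _ _ => 0) c z C1
      hcsum (by omega) (by
        intro y hy
        have := hC1 y hy
        simpa using this)
    refine ⟨Cc, (c : ℝ) + 1, 2 * c + 1, K, y0, hC0, ?_, ?_, hK1, ?_⟩
    · have : (0 : ℝ) ≤ c := Nat.cast_nonneg _
      linarith
    · have : (0 : ℝ) ≤ c := Nat.cast_nonneg _
      linarith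
    rintro ⟨⟨N, X⟩, hX1, hN⟩ y Y k hy0 hzy hyK hk s hs v hv u hu h8 E T' hT' hval
    simp only at hX1 hN hyK hk h8 hT' hval ⊢
    have hmain := hcn (fun j => (P j).comp (Polynomial.X + C N)) (fun _ => 1) 1 X y Y one_ne_zero
      hy0 hzy hyK ?_ s hs v hv u hu h8 E
    · have hsub : T' ⊆ (Icc 1 X).filter (fun t : ℕ =>
          (∀ p ∈ (1 : ℕ).primeFactors, z < p → ∀ j,
            ¬ (p : ℤ) ∣ ((P j).comp (Polynomial.X + C N)).eval (t : ℤ)) ∧
          S1 z y (fun j => ((P j).comp (Polynomial.X + C N)).eval (t : ℤ)) = s ∧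
          S2 z y (fun j => ((P j).comp (Polynomial.X + C N)).eval (t : ℤ)) = v ∧
          (∀ j, (u j : ℤ) ∣ ((P j).comp (Polynomial.X + C N)).eval (t : ℤ)) ∧
          (∀ p ∈ PS z y, ¬ p ∣ 1 → ∀ i : Fin 0, ¬ (p : ℤ) ∣ ((fun _ => 1 : Fin 0 → ℤ[X]) i).eval (t : ℤ)) ∧
          ng (∏ j, s j) (∏ j, ((P j).comp (Polynomial.X + C N)).eval (t : ℤ)) = E) := by
        intro t ht
        rw [mem_filter]
        obtain ⟨e1, e2, e3, e4⟩ := hval t ht
        have hev : ∀ j, ((P j).comp (Polynomial.X + C N)).eval (t : ℤ) = (P j).eval (N + (t : ℤ)) := by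
          intro j
          rw [eval_shift, add_comm]
        simp only [hev]
        refine ⟨(mem_filter.1 (hT' ht)).1, ?_, e1, e2, e3, ?_, e4⟩
        · intro p hp
          simp at hp
        · intro p _ _ i
          exact i.elim0
      have hcard := (Nat.cast_le (α := ℝ)).2 (card_le_card hsub)
      refine (hcard.trans hmain).trans ?_
      have hM : (∏ p ∈ (1 : ℕ).primeFactors.filter (fun p => z < p), (p : ℝ) / ((p : ℝ) - c)) = 1 := by
        simp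
      rw [hM, mul_one, Fintype.card_fin, add_zero]
      have hzc : 2 * c + 2 ≤ z := by omega
      have f1 := v_factor c n z y (by omega) hzc v hv
      have f2 := u_factor c y Y X k u v s hu z y hs hv h8 hk
      have f3 : 0 ≤ ∏ j, (gw 1 c (s j) * rr (re (e j)) (s j)) :=
        prod_nonneg fun j _ => mul_nonneg (gw_nonneg' c z (s j) hzc (tup_prime hs j)) (rr_nonneg _ _)
      have f4 : 0 ≤ ∏ j, (c : ℝ) ^ (v j).primeFactors.card * (gw 1 c (v j) / v j) := by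
        refine prod_nonneg fun j _ => ?_
        have := gw_nonneg' c z (v j) hzc (tup_prime hv j)
        positivity
      have f5 : 0 ≤ ∏ j, (c : ℝ) ^ (u j).primeFactors.card * (1 / (u j : ℝ)) :=
        prod_nonneg fun j _ => by positivity
      have hlog : 0 ≤ (Real.log y) ^ n := by
        apply pow_nonneg
        exact Real.log_natCast_nonneg y
      apply div_le_div_of_nonneg_right _ hlog
      have g1 : (∏ j, (c : ℝ) ^ (v j).primeFactors.card * (gw 1 c (v j) / v j)) *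
          (∏ j, (c : ℝ) ^ (u j).primeFactors.card * (1 / (u j : ℝ))) ≤
          (∏ j, (2 * c + 1 : ℝ) ^ (v j).primeFactors.card * (gw 1 n (v j) / v j)) *
          (((c : ℝ) + 1) ^ k * ∏ j, 1 / (u j : ℝ)) :=
        mul_le_mul f1 f2 f5 (f4.trans f1)
      have g2 : 0 ≤ Cc * X * (1 / 2) ^ (∏ j, s j).primeFactors.card *
          (∏ j, (gw 1 c (s j) * rr (re (e j)) (s j))) := by positivity
      calc Cc * X * (1 / 2) ^ (∏ j, s j).primeFactors.card *
          (∏ j, (gw 1 c (s j) * rr (re (e j)) (s j))) *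
          (∏ j, (c : ℝ) ^ (v j).primeFactors.card * (gw 1 c (v j) / v j)) *
          (∏ j, (c : ℝ) ^ (u j).primeFactors.card * (1 / (u j : ℝ)))
          = (Cc * X * (1 / 2) ^ (∏ j, s j).primeFactors.card *
          (∏ j, (gw 1 c (s j) * rr (re (e j)) (s j)))) *
          ((∏ j, (c : ℝ) ^ (v j).primeFactors.card * (gw 1 c (v j) / v j)) *
          (∏ j, (c : ℝ) ^ (u j).primeFactors.card * (1 / (u j : ℝ)))) := by ring
        _ ≤ (Cc * X * (1 / 2) ^ (∏ j, s j).primeFactors.card *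
          (∏ j, (gw 1 c (s j) * rr (re (e j)) (s j)))) *
          ((∏ j, (2 * c + 1 : ℝ) ^ (v j).primeFactors.card * (gw 1 n (v j) / v j)) *
          (((c : ℝ) + 1) ^ k * ∏ j, 1 / (u j : ℝ))) := mul_le_mul_of_nonneg_left g1 g2
        _ = _ := by ring
    · -- the hypotheses on the primes
      intro p hp hzp _
      refine ⟨fun j => ?_, fun i => i.elim0, fun x => ⟨fun j l hjl h => ?_, fun i => i.elim0,
        fun j i => i.elim0, fun j h => ?_⟩⟩
      · rw [nz_shift _ _ _ hp.pos]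
        exact hp0 p hp (by omega) j
      · rw [eval_shift, eval_shift] at h
        exact hq1 j l hjl p hp (lt_of_le_of_lt ((hq1z j l).trans hz) hzp) _ h
      · have hder : (derivative ((P j).comp (Polynomial.X + C N))).eval x =
            (derivative (P j)).eval (x + N) := by
          rw [derivative_comp, derivative_add, derivative_X, derivative_C, add_zero, one_mul,
            eval_shift]
        rw [eval_shift, hder] at h
        exact hq2 j p hp (lt_of_le_of_lt ((hq2z j).trans hz) hzp) _ h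

end Pool.Agent.W262.SQ
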