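import Pool.Agent.W262.SQ.Stm
import Pool.Agent.W856.QF.AVB

/-!
# Project SQ: AVBG (adapted from helper856)
-/

set_option autoImplicit false

namespace Pool.Agent.W262.SQ

open Finset Polynomial Pool.Agent.W262.RK Pool.Agent.W307.RT Pool.Agent.W307.RS
  Pool.Agent.W307.QF Pool.Agent.W856.QF

theorem avb_of {R : ℤ → ℤ → ℝ} (hR : ∀ A B, 0 ≤ R A B) (h1 : AVGAG R) (h2 : CNTE) (h3 : MERL)
    (h4 : COP) (h5 : AVAG R) : AVBG R := by
  intro J _ _ P e a k0 B hD hP0 ha ha2 hk0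
  obtain ⟨z1, hz1⟩ := count h2 h3 h4 J P e hD hP0
  obtain ⟨c0, d0, hsz⟩ := size_all J P
  obtain ⟨CA, hCA⟩ := h5 J P e a k0 B hD ha ha2 hk0
  set n := Fintype.card J with hn
  -- the summand
  let r : ℤ → ℝ := fun w => (R (a 0 * ∏ j, (P j).eval w)
        (a 1 * ∏ j, (P j).eval w)) ^ k0
  have hr0 : ∀ w, 0 ≤ r w := fun w => pow_nonneg (hR _ _) _
  have hlog : ∀ X : ℕ, 2 ≤ X → 0 < Real.log (X : ℝ) := fun X hX =>
    Real.log_pos (by exact_mod_cast (by omega : 1 < X))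
  obtain ⟨C2, hC2⟩ : ∃ C2 : ℝ, ∀ θ : {θ : ℤ × ℕ // 2 ≤ θ.2 ∧ θ.1.natAbs ≤ θ.2 ^ B},
      ∑ t ∈ (Icc 1 θ.1.2).filter (fun t : ℕ => ((θ.1.1 + (t : ℤ)).toNat.Prime ∧
        θ.1.2 < (θ.1.1 + (t : ℤ)).toNat ^ 2) ∧ ∀ j, (P j).eval (θ.1.1 + (t : ℤ)) ≠ 0),
        r (θ.1.1 + (t : ℤ)) ≤ C2 * ((θ.1.2 : ℝ) / Real.log (θ.1.2 : ℝ)) := by
    refine h1 J ℕ {θ : ℤ × ℕ // 2 ≤ θ.2 ∧ θ.1.natAbs ≤ θ.2 ^ B}
      (fun θ => (Icc 1 θ.1.2).filter (fun t : ℕ => ((θ.1.1 + (t : ℤ)).toNat.Prime ∧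
        θ.1.2 < (θ.1.1 + (t : ℤ)).toNat ^ 2) ∧ ∀ j, (P j).eval (θ.1.1 + (t : ℤ)) ≠ 0))
      (fun θ => θ.1.2) (fun θ t j => (P j).eval (θ.1.1 + (t : ℤ)))
      (fun θ => (θ.1.2 : ℝ) / Real.log (θ.1.2 : ℝ)) a e (2 * n + 1) ((B + 3) * d0 + 1) k0 ha ha2
      hD.sq hk0 (by omega) (fun θ => le_trans (by norm_num) θ.2.1)
      (fun θ => div_nonneg (Nat.cast_nonneg _) (hlog _ θ.2.1).le) (fun X0 => ?_) ⟨c0, ?_⟩
      ⟨z1, fun z hz => ?_⟩
    · -- small scales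
      refine ⟨∑ N ∈ Icc (-((X0 : ℤ) ^ B)) ((X0 : ℤ) ^ B), ∑ t ∈ Icc 1 X0, r (N + (t : ℤ)), ?_⟩
      rintro ⟨⟨N, X⟩, hX, hN⟩ hle
      simp only at hX hN hle ⊢
      have hX0 : X ^ B ≤ X0 ^ B := Nat.pow_le_pow_left hle B
      have hmem : N ∈ Icc (-((X0 : ℤ) ^ B)) ((X0 : ℤ) ^ B) := by
        rw [mem_Icc]
        have h1 : (N.natAbs : ℤ) ≤ (X0 : ℤ) ^ B := by exact_mod_cast hN.trans hX0
        omega
      have h1 : ∑ t ∈ (Icc 1 X).filter (fun t : ℕ => ((N + (t : ℤ)).toNat.Prime ∧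
          X < (N + (t : ℤ)).toNat ^ 2) ∧ ∀ j, (P j).eval (N + (t : ℤ)) ≠ 0),
          r (N + (t : ℤ)) ≤ ∑ t ∈ Icc 1 X0, r (N + (t : ℤ)) := by
        refine sum_le_sum_of_subset_of_nonneg ?_ fun t _ _ => hr0 _
        exact (filter_subset _ _).trans (Icc_subset_Icc_right hle)
      have h2 : ∑ t ∈ Icc 1 X0, r (N + (t : ℤ)) ≤
          ∑ N ∈ Icc (-((X0 : ℤ) ^ B)) ((X0 : ℤ) ^ B), ∑ t ∈ Icc 1 X0, r (N + (t : ℤ)) :=
        single_le_sum (f := fun N : ℤ => ∑ t ∈ Icc 1 X0, r (N + (t : ℤ)))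
          (fun _ _ => sum_nonneg fun _ _ => hr0 _) hmem
      have h3 : 0 ≤ ∑ N ∈ Icc (-((X0 : ℤ) ^ B)) ((X0 : ℤ) ^ B),
          ∑ t ∈ Icc 1 X0, r (N + (t : ℤ)) := sum_nonneg fun _ _ => sum_nonneg fun _ _ => hr0 _
      exact (h1.trans h2).trans (le_mul_of_one_le_right h3 (one_le_S hX))
    · -- sizes
      rintro ⟨⟨N, X⟩, hX, hN⟩ hle t ht j
      simp only at hX hN hle ht ⊢
      have ht1 := (mem_Icc.1 (mem_filter.1 ht).1).2
      have e1 : (N + (t : ℤ)).natAbs + 1 ≤ X ^ (B + 3) := by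
        have a1 : (N + (t : ℤ)).natAbs ≤ N.natAbs + t := by
          refine (Int.natAbs_add_le _ _).trans ?_
          rw [Int.natAbs_natCast]
        have a2 : X ^ B ≤ X ^ (B + 1) := Nat.pow_le_pow_right (by omega) (by omega)
        have a3 : X ≤ X ^ (B + 1) := Nat.le_self_pow (by omega) X
        have a4 : 1 ≤ X ^ (B + 1) := Nat.one_le_pow _ _ (by omega)
        have a5 : 3 * X ^ (B + 1) ≤ X ^ (B + 3) := by
          have : X ^ (B + 3) = X ^ 2 * X ^ (B + 1) := by ring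
          rw [this]
          exact Nat.mul_le_mul_right _ (by nlinarith)
        omega
      calc ((P j).eval (N + (t : ℤ))).natAbs ≤ c0 * ((N + (t : ℤ)).natAbs + 1) ^ d0 := hsz j _
        _ ≤ X * (X ^ (B + 3)) ^ d0 := Nat.mul_le_mul hle (Nat.pow_le_pow_left e1 d0)
        _ = X ^ ((B + 3) * d0 + 1) := by rw [← pow_mul, pow_succ, mul_comm]
    · -- the main counting bound
      obtain ⟨hco, C0, K, y0, hC0, hK1, hcnt⟩ := hz1 z hz
      refine ⟨fun θ t ht => ⟨(mem_filter.1 ht).2.2, fun p hp hzp j l hjl =>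
        hco p hp hzp j l hjl _⟩, 2 * C0, 2 * (2 * n + 1 : ℕ), 2 * (2 * n + 1 : ℕ), K, y0,
        by positivity, ?_, ?_, hK1, ?_⟩
      · have : (0 : ℝ) ≤ (n : ℝ) := Nat.cast_nonneg _
        push_cast
        linarith
      · have : (0 : ℝ) ≤ (n : ℝ) := Nat.cast_nonneg _
        push_cast
        linarith
      rintro ⟨⟨N, X⟩, hX, hN⟩ y Y k hy0 hzy hyK hk s hs v hv u hu h8 E T' hT' hval
      simp only at hX hN hyK hk h8 hT' hval ⊢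
      exact hcnt N X y Y k hX hy0 hzy hyK hk s hs v hv u hu h8 E T'
        (fun t ht => (mem_filter.1 (hT' ht)).1) (fun t ht => (mem_filter.1 (hT' ht)).2.1) hval
  refine ⟨C2 + 2 * |CA|, fun N X hX hN => ?_⟩
  change ∑ t ∈ (Icc 1 X).filter (fun t : ℕ => (N + (t : ℤ)).toNat.Prime ∧
      ∀ j, (P j).eval (N + (t : ℤ)) ≠ 0), r (N + (t : ℤ)) ≤ _
  have hm := hC2 ⟨(N, X), hX, hN⟩
  simp only at hm
  -- the small primes
  set A := (Icc 1 X).filter (fun t : ℕ => ((N + (t : ℤ)).toNat.Prime ∧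
      ∀ j, (P j).eval (N + (t : ℤ)) ≠ 0) ∧ ¬ X < (N + (t : ℤ)).toNat ^ 2) with hA
  have hsplit : ∑ t ∈ (Icc 1 X).filter (fun t : ℕ => (N + (t : ℤ)).toNat.Prime ∧
      ∀ j, (P j).eval (N + (t : ℤ)) ≠ 0), r (N + (t : ℤ)) =
      ∑ t ∈ (Icc 1 X).filter (fun t : ℕ => ((N + (t : ℤ)).toNat.Prime ∧
        X < (N + (t : ℤ)).toNat ^ 2) ∧ ∀ j, (P j).eval (N + (t : ℤ)) ≠ 0), r (N + (t : ℤ)) +
      ∑ t ∈ A, r (N + (t : ℤ)) := by
    rw [← sum_filter_add_sum_filter_not ((Icc 1 X).filter (fun t : ℕ =>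
      (N + (t : ℤ)).toNat.Prime ∧ ∀ j, (P j).eval (N + (t : ℤ)) ≠ 0))
      (fun t : ℕ => X < (N + (t : ℤ)).toNat ^ 2), filter_filter, filter_filter]
    congr 1
    refine sum_congr (filter_congr fun t _ => ?_) fun _ _ => rfl
    tauto
  have hnn : ∀ t ∈ A, 0 ≤ N + (t : ℤ) := by
    intro t ht
    rw [hA, mem_filter] at ht
    by_contra hneg
    push Not at hneg
    have hq := ht.2.1.1
    rw [Int.toNat_of_nonpos hneg.le] at hq
    exact Nat.not_prime_zero hq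
  have hsmall : ∑ t ∈ A, r (N + (t : ℤ)) ≤ |CA| * (Nat.sqrt X : ℕ) := by
    have hs1 : 1 ≤ Nat.sqrt X := by
      rw [Nat.le_sqrt]
      omega
    have hb := hCA 0 (Nat.sqrt X) hs1 (by simp)
    have hinj : Set.InjOn (fun t : ℕ => (N + (t : ℤ)).toNat) A := by
      intro t ht t' ht' h
      have h1 := hnn t ht
      have h2 := hnn t' ht'
      simp only at h
      omega
    have e1 : ∑ t ∈ A, r (N + (t : ℤ)) =
        ∑ w ∈ A.image (fun t : ℕ => (N + (t : ℤ)).toNat), r ((0 : ℤ) + (w : ℤ)) := by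
      rw [sum_image hinj]
      refine sum_congr rfl fun t ht => ?_
      rw [Int.toNat_of_nonneg (hnn t ht), zero_add]
    have e2 : ∑ w ∈ A.image (fun t : ℕ => (N + (t : ℤ)).toNat), r ((0 : ℤ) + (w : ℤ)) ≤
        ∑ w ∈ (Icc 1 (Nat.sqrt X)).filter (fun t : ℕ => ∀ j, (P j).eval ((0 : ℤ) + (t : ℤ)) ≠ 0),
          r ((0 : ℤ) + (w : ℤ)) := by
      refine sum_le_sum_of_subset_of_nonneg ?_ fun t _ _ => hr0 _
      intro w hw
      rw [mem_image] at hw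
      obtain ⟨t, ht, rfl⟩ := hw
      have h0 := hnn t ht
      rw [hA, mem_filter] at ht
      rw [mem_filter, mem_Icc]
      refine ⟨⟨ht.2.1.1.pos, ?_⟩, fun j => ?_⟩
      · rw [Nat.le_sqrt, ← sq]
        have := ht.2.2
        omega
      · rw [Int.toNat_of_nonneg h0, zero_add]
        exact ht.2.1.2 j
    rw [e1]
    refine e2.trans (le_trans hb ?_)
    exact mul_le_mul_of_nonneg_right (le_abs_self CA) (Nat.cast_nonneg _)
  rw [hsplit]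
  have hsq := sqrt_bd hX
  calc _ ≤ C2 * ((X : ℝ) / Real.log X) + |CA| * (Nat.sqrt X : ℕ) := add_le_add hm hsmall
    _ ≤ C2 * ((X : ℝ) / Real.log X) + |CA| * (2 * (X / Real.log X)) := by
        gcongr
    _ = _ := by ring

end Pool.Agent.W262.SQ
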