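import Pool.Agent.W262.SQ.Stm
import Pool.Agent.W54.QF.AVD

/-!
# Project SQ: AVDG (adapted from helper54)
-/

set_option autoImplicit false

namespace Pool.Agent.W262.SQ

open Finset Polynomial Pool.Agent.W262.RK Pool.Agent.W307.RT Pool.Agent.W307.RS
  Pool.Agent.W307.QF Pool.Agent.W54.QF

theorem avd_of {R : ℤ → ℤ → ℝ} (hR : ∀ A B, 0 ≤ R A B) (h : AVCG R) : AVDG R := by
  intro J1 J2 _ _ _ _ α β qa qb qc a k B hD ha ha' hk
  obtain ⟨q, hq⟩ := exists_q α β hD.nz0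
  obtain ⟨α', hα'⟩ : ∃ α' : J1 → ℤ, ∀ i, α' i = α i + (q : ℤ) * β i := ⟨_, fun i => rfl⟩
  obtain ⟨qa', hqa'⟩ : ∃ qa' : J2 → ℤ, ∀ j, qa' j = qa j + (q : ℤ) * qb j + (q : ℤ) ^ 2 * qc j :=
    ⟨_, fun j => rfl⟩
  obtain ⟨qb', hqb'⟩ : ∃ qb' : J2 → ℤ, ∀ j, qb' j = qb j + 2 * (q : ℤ) * qc j := ⟨_, fun j => rfl⟩
  have hq' : ∀ i, α' i ≠ 0 := by
    intro i
    rw [hα']
    exact hq i
  have hD' : DatC α' β qa' qb' qc := by
    refine ⟨?_, fun i => Or.inl (hq' i), ?_, ?_⟩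
    · intro i j hij heq
      apply hD.lin i j hij
      rw [hα', hα'] at heq
      linear_combination heq
    · intro j hsq
      apply hD.irr j
      have e : qb j ^ 2 - 4 * qa j * qc j = qb' j ^ 2 - 4 * qa' j * qc j := by
        rw [hqa', hqb']
        ring
      rw [e]
      exact hsq
    · rintro i j hij ⟨g1, g2, g3⟩
      rw [hqa', hqa', hqb', hqb'] at g1
      rw [hqa', hqa'] at g2
      rw [hqb', hqb'] at g3
      apply hD.quad i j hij
      have k3 : qb i * qc j = qb j * qc i := by linear_combination g3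
      have k2 : qa i * qc j = qa j * qc i := by linear_combination g2 - (q : ℤ) * k3
      refine ⟨?_, k2, k3⟩
      linear_combination g1 - 2 * (q : ℤ) * k2 - (q : ℤ) ^ 2 * k3
  have hfb : ∀ (u v v' : ℤ), v' = v - q * u → ∀ j, fb α β qa qb qc u v j =
      fb α' β qa' qb' qc u v' j := by
    intro u v v' hv' j
    rw [hv']
    cases j with
    | inl j =>
      show α j * u + β j * v = α' j * u + β j * (v - q * u)
      rw [hα']
      ring
    | inr j =>
      show qa j * u ^ 2 + qb j * (u * v) + qc j * v ^ 2 =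
        qa' j * u ^ 2 + qb' j * (u * (v - q * u)) + qc j * (v - q * u) ^ 2
      rw [hqa', hqb']
      ring
  obtain ⟨C, hC⟩ := h J1 J2 α' β qa' qb' qc a k (B + 2) hD' hq' ha ha' hk
  refine ⟨C * ((q : ℝ) + 1) ^ 2, ?_⟩
  intro U V X hX hU hV
  have hXX' : X ≤ (q + 1) * X := Nat.le_mul_of_pos_left X (Nat.succ_pos q)
  have hX'1 : 1 ≤ (q + 1) * X := hX.trans hXX'
  have hb1 : U.natAbs ≤ ((q + 1) * X) ^ (B + 2) :=
    hU.trans ((Nat.pow_le_pow_left hXX' B).trans (Nat.pow_le_pow_right hX'1 (by omega)))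
  have hb2 : (V - q * U - q * X).natAbs ≤ ((q + 1) * X) ^ (B + 2) := size_aux q X B hX U V hU hV
  have key := hC U (V - q * U - q * X) ((q + 1) * X) hX'1 hb1 hb2
  have hfin : C * (((q + 1) * X : ℕ) : ℝ) ^ 2 = C * ((q : ℝ) + 1) ^ 2 * (X : ℝ) ^ 2 := by
    push_cast
    ring
  rw [hfin] at key
  refine (step _ _ _ _ (fun t => ((t.1 - U).toNat, (t.2 - V + q * (X - (t.1 - U))).toNat))
    ?_ ?_ ?_ ?_).trans key
  · intro t ht
    rw [mem_filter, mem_product, mem_Ioc, mem_Ioc] at ht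
    obtain ⟨⟨⟨t1, t2⟩, t3, t4⟩, t5, t6⟩ := ht
    have p0 : 0 ≤ (q : ℤ) * (X - (t.1 - U)) := mul_nonneg (by positivity) (by linarith)
    have p1 : (q : ℤ) * (X - (t.1 - U)) ≤ q * X :=
      mul_le_mul_of_nonneg_left (by linarith) (by positivity)
    have e1 : (((t.1 - U).toNat : ℕ) : ℤ) = t.1 - U := Int.toNat_of_nonneg (by linarith)
    have e2 : (((t.2 - V + q * (X - (t.1 - U))).toNat : ℕ) : ℤ) =
        t.2 - V + q * (X - (t.1 - U)) := Int.toNat_of_nonneg (by linarith)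
    have e3 : U + (t.1 - U) = t.1 := by ring
    have e4 : V - q * U - q * X + (t.2 - V + q * (X - (t.1 - U))) = t.2 - q * t.1 := by ring
    have hle : (((q + 1) * X : ℕ) : ℤ) = q * X + X := by
      push_cast
      ring
    rw [mem_filter, mem_product, mem_Icc, mem_Icc]
    refine ⟨⟨⟨?_, ?_⟩, ?_, ?_⟩, ?_, ?_⟩
    · show 1 ≤ (t.1 - U).toNat
      zify
      rw [e1]
      linarith
    · show (t.1 - U).toNat ≤ (q + 1) * X
      have : (((t.1 - U).toNat : ℕ) : ℤ) ≤ (((q + 1) * X : ℕ) : ℤ) := by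
        rw [e1, hle]
        have : (0 : ℤ) ≤ q * X := by positivity
        linarith
      exact_mod_cast this
    · show 1 ≤ (t.2 - V + q * (X - (t.1 - U))).toNat
      have : (1 : ℤ) ≤ (((t.2 - V + q * (X - (t.1 - U))).toNat : ℕ) : ℤ) := by
        rw [e2]
        linarith
      exact_mod_cast this
    · show (t.2 - V + q * (X - (t.1 - U))).toNat ≤ (q + 1) * X
      have : (((t.2 - V + q * (X - (t.1 - U))).toNat : ℕ) : ℤ) ≤ (((q + 1) * X : ℕ) : ℤ) := by
        rw [e2, hle]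
        linarith
      exact_mod_cast this
    · show IsCoprime (U + (((t.1 - U).toNat : ℕ) : ℤ))
        (V - q * U - q * X + (((t.2 - V + q * (X - (t.1 - U))).toNat : ℕ) : ℤ))
      rw [e1, e2, e3, e4]
      have e5 : t.2 - q * t.1 = t.2 + (-(q : ℤ)) * t.1 := by ring
      rw [e5]
      exact IsCoprime.add_mul_right_right_iff.2 t5
    · intro j
      show fb α' β qa' qb' qc (U + (((t.1 - U).toNat : ℕ) : ℤ))
        (V - q * U - q * X + (((t.2 - V + q * (X - (t.1 - U))).toNat : ℕ) : ℤ)) j ≠ 0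
      rw [e1, e2, e3, e4, ← hfb t.1 t.2 _ rfl j]
      exact (prod_ne_zero_iff.1 t6) j (mem_univ j)
  · intro t ht t' ht' heq
    rw [mem_filter, mem_product, mem_Ioc, mem_Ioc] at ht ht'
    obtain ⟨⟨⟨t1, t2⟩, t3, t4⟩, -⟩ := ht
    obtain ⟨⟨⟨s1, s2⟩, s3, s4⟩, -⟩ := ht'
    have p0 : 0 ≤ (q : ℤ) * (X - (t.1 - U)) := mul_nonneg (by positivity) (by linarith)
    have p0' : 0 ≤ (q : ℤ) * (X - (t'.1 - U)) := mul_nonneg (by positivity) (by linarith)
    have e1 : (((t.1 - U).toNat : ℕ) : ℤ) = t.1 - U := Int.toNat_of_nonneg (by linarith)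
    have e2 : (((t.2 - V + q * (X - (t.1 - U))).toNat : ℕ) : ℤ) =
        t.2 - V + q * (X - (t.1 - U)) := Int.toNat_of_nonneg (by linarith)
    have e1' : (((t'.1 - U).toNat : ℕ) : ℤ) = t'.1 - U := Int.toNat_of_nonneg (by linarith)
    have e2' : (((t'.2 - V + q * (X - (t'.1 - U))).toNat : ℕ) : ℤ) =
        t'.2 - V + q * (X - (t'.1 - U)) := Int.toNat_of_nonneg (by linarith)
    have h1 : (t.1 - U).toNat = (t'.1 - U).toNat := congrArg Prod.fst heq
    have h2 : (t.2 - V + q * (X - (t.1 - U))).toNat = (t'.2 - V + q * (X - (t'.1 - U))).toNat :=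
      congrArg Prod.snd heq
    have h3 : t.1 = t'.1 := by
      have : t.1 - U = t'.1 - U := by rw [← e1, ← e1', h1]
      linarith
    have h4 : t.2 = t'.2 := by
      have : t.2 - V + q * (X - (t.1 - U)) = t'.2 - V + q * (X - (t'.1 - U)) := by
        rw [← e2, ← e2', h2]
      rw [h3] at this
      linarith
    exact Prod.ext h3 h4
  · intro t ht
    rw [mem_filter, mem_product, mem_Ioc, mem_Ioc] at ht
    obtain ⟨⟨⟨t1, t2⟩, t3, t4⟩, -⟩ := ht
    have p0 : 0 ≤ (q : ℤ) * (X - (t.1 - U)) := mul_nonneg (by positivity) (by linarith)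
    have e1 : (((t.1 - U).toNat : ℕ) : ℤ) = t.1 - U := Int.toNat_of_nonneg (by linarith)
    have e2 : (((t.2 - V + q * (X - (t.1 - U))).toNat : ℕ) : ℤ) =
        t.2 - V + q * (X - (t.1 - U)) := Int.toNat_of_nonneg (by linarith)
    have e3 : U + (t.1 - U) = t.1 := by ring
    have e4 : V - q * U - q * X + (t.2 - V + q * (X - (t.1 - U))) = t.2 - q * t.1 := by ring
    have hprod : ∏ j, fb α β qa qb qc t.1 t.2 j =
        ∏ j, fb α' β qa' qb' qc (U + (((t.1 - U).toNat : ℕ) : ℤ))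
          (V - q * U - q * X + (((t.2 - V + q * (X - (t.1 - U))).toNat : ℕ) : ℤ)) j := by
      rw [e1, e2, e3, e4]
      exact prod_congr rfl (fun j _ => hfb t.1 t.2 _ rfl j)
    rw [hprod]
  · intro s _
    exact pow_nonneg (hR _ _) _

end Pool.Agent.W262.SQ
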