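import Pool.Agent.W262.SQ.Stm
import Pool.Agent.W440.QF.AVGA

/-!
# Project SQ: AVGAG (adapted from helper440)
-/

set_option autoImplicit false

namespace Pool.Agent.W262.SQ

open Finset Polynomial Pool.Agent.W262.RK Pool.Agent.W307.RT Pool.Agent.W307.RS
  Pool.Agent.W307.QF W440.QF

theorem avga_gen {R : ℤ → ℤ → ℝ} (hR : ∀ A B, 0 ≤ R A B) (hant : ANTU) (hsub : SUBBK)
    (hrank : RANKG R) (hma : MAE) : AVGAG R := by
  intro J _ _ Ω Θ T L f S a e c B k0 ha ha2 he hk0 hJc hL hS hsmall hX1 hz1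
  obtain ⟨X1, hX1⟩ := hX1
  obtain ⟨z1, hz1⟩ := hz1
  obtain ⟨κ, hκ⟩ : ∃ κ : J → Fin 3 → ℤ, κ = fun _ => a := ⟨_, rfl⟩
  have hκ0 : ∀ j k, κ j k ≠ 0 := by
    intro j k
    rw [hκ]
    exact ha k
  obtain ⟨z0, hz0⟩ := hma J k0 κ e c hk0 hκ0 he
  set n := Fintype.card J with hn
  set z : ℕ := z0 + z1 + (4 * c + 4) + ∑ k, (a k).natAbs with hz
  have haz : ∀ k, (a k).natAbs ≤ z := by
    intro k
    have h1 := single_le_sum (f := fun k => (a k).natAbs) (fun _ _ => Nat.zero_le _) (mem_univ k)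
    omega
  have hκz : ∀ j k, (κ j k).natAbs ≤ z := by
    intro j k
    rw [hκ]
    exact haz k
  have hz2 : 2 ≤ z := by omega
  have hzc : 4 * c + 4 ≤ z := by omega
  have hzn : 4 * n + 4 ≤ z := by omega
  obtain ⟨C', hC'⟩ := hz0 z (by omega)
  obtain ⟨hGd, C, D, A, K, y0, hC0, hD1, hA1, hK1, hcn⟩ := hz1 z (by omega)
  -- the summand
  let r : Θ → Ω → ℝ := fun θ ω => (R (a 0 * ∏ j, f θ ω j) (a 1 * ∏ j, f θ ω j)) ^ k0
  have hr0 : ∀ θ ω, 0 ≤ r θ ω := fun θ ω => pow_nonneg (hR _ _) _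
  -- the majorant
  let G : (J → ℕ) → ℝ := fun s => NBK k0 κ s * ∏ j, ph n c (e j) (s j)
  have hNB0 : ∀ s, 0 ≤ NBK k0 κ s := by
    intro s
    unfold NBK
    exact mul_nonneg (by positivity) (sum_nonneg fun _ _ => pow_nonneg (Nat.cast_nonneg _) _)
  have hGw : ∀ y, ∀ s ∈ Tup J z y, G s * ∏ j, gw 1 n (s j) =
      NBK k0 κ s * ∏ j, (gw 1 c (s j) * rr (re (e j)) (s j)) := by
    intro y s hs
    show NBK k0 κ s * (∏ j, ph n c (e j) (s j)) * ∏ j, gw 1 n (s j) = _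
    rw [mul_assoc, ← prod_mul_distrib]
    congr 1
    refine prod_congr rfl fun j _ => ?_
    exact ph_gw (e j) hJc hzc (tup_mem hs j)
  have hA'1 : 1 ≤ A * (4 * 4 ^ k0) := by
    have h1 : (1 : ℝ) ≤ 4 ^ k0 := one_le_pow₀ (by norm_num)
    nlinarith
  refine hant J Ω Θ T L f S z G r (A * (4 * 4 ^ k0))
    (C * (4 ^ (z + 2)) ^ k0) C' (D * ((4 ^ B) ^ n) ^ k0) K (y0 + X1 + 1) (by omega) hL hS
    hsmall hGd (fun s => mul_nonneg (hNB0 s) (prod_nonneg fun j _ => ph_nonneg _ _ _ _)) hr0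
    hA'1 (by positivity) ?_ hK1 ?_ ?_ ?_
  · have h1 : (1 : ℝ) ≤ ((4 ^ B) ^ n) ^ k0 :=
      one_le_pow₀ (one_le_pow₀ (one_le_pow₀ (by norm_num)))
    nlinarith
  · -- growth
    intro y hy s e' hse
    have h1 := hsub J k0 κ z y hz2 hκ0 hκz s e' hse
    have h2 : ∏ j, ph n c (e j) (s j * e' j) ≤
        4 ^ (∑ j, (e' j).primeFactors.card) * ∏ j, ph n c (e j) (s j) := by
      rw [← prod_pow_eq_pow_sum, ← prod_mul_distrib]
      refine prod_le_prod (fun j _ => ph_nonneg _ _ _ _) fun j _ => ?_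
      exact ph_mul (e j) hJc hzc (tup_mem hse j)
    show NBK k0 κ (fun j => s j * e' j) * ∏ j, ph n c (e j) (s j * e' j) ≤ _
    calc NBK k0 κ (fun j => s j * e' j) * ∏ j, ph n c (e j) (s j * e' j)
        ≤ ((4 ^ k0 : ℝ) ^ (∑ j, (e' j).primeFactors.card) * NBK k0 κ s) *
          (4 ^ (∑ j, (e' j).primeFactors.card) * ∏ j, ph n c (e j) (s j)) :=
          mul_le_mul h1 h2 (prod_nonneg fun j _ => ph_nonneg _ _ _ _)
            (mul_nonneg (by positivity) (hNB0 s))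
      _ = (4 * 4 ^ k0 : ℝ) ^ (∑ j, (e' j).primeFactors.card) *
          (NBK k0 κ s * ∏ j, ph n c (e j) (s j)) := by
          rw [mul_pow]
          ring
      _ ≤ (A * (4 * 4 ^ k0)) ^ (∑ j, (e' j).primeFactors.card) *
          (NBK k0 κ s * ∏ j, ph n c (e j) (s j)) := by
          refine mul_le_mul_of_nonneg_right ?_
            (mul_nonneg (hNB0 s) (prod_nonneg fun j _ => ph_nonneg _ _ _ _))
          refine pow_le_pow_left₀ (by positivity) ?_ _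
          have h1 : (0 : ℝ) ≤ 4 * 4 ^ k0 := by positivity
          nlinarith
  · -- the main average
    intro y hy
    refine le_trans (le_of_eq ?_) (hC' y hy)
    exact sum_congr rfl fun s hs => hGw y s hs
  -- the local majorant
  intro θ y Y k hy0 hzy hyK hk s hs v hv u hu h8 T' hT' hval
  have hy00 : y0 ≤ y := by omega
  have hyL : y ≤ L θ := le_trans (Nat.le_self_pow (by omega) y) hyK
  set g : Finset ℕ → ℝ := fun E => (NL (∏ j, s j) (LLs (c3 J) κ s E) : ℝ) ^ k0 with hg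
  have hg0 : ∀ E, 0 ≤ g E := fun E => pow_nonneg (Nat.cast_nonneg _) _
  have h1 : ∀ ω ∈ T', r θ ω ≤
      (4 ^ (z + 2)) ^ k0 * (((4 ^ B) ^ n) ^ k0) ^ k *
        (4 ^ k0) ^ (∑ j, (v j).primeFactors.card) * g (ng (∏ j, s j) (∏ j, f θ ω j)) := by
    intro ω hω
    have hωT := hT' hω
    obtain ⟨hts, htv, _⟩ := hval ω hω
    have hr := hrank J a z y (L θ) k B (f θ ω) hz2 (hGd θ ω hωT) ha haz ha2
      (hX1 θ (by omega) ω hωT) (hL θ) (by omega) hk
    rw [hts, htv, ← hn] at hr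
    have hr' : R (a 0 * ∏ j, f θ ω j) (a 1 * ∏ j, f θ ω j) ≤
        4 ^ (z + 2) * ((4 ^ B) ^ n) ^ k * 4 ^ (∑ j, (v j).primeFactors.card) *
          (NL (∏ j, s j) (LLs (c3 J) κ s (ng (∏ j, s j) (∏ j, f θ ω j))) : ℝ) := by
      rw [hκ]
      exact_mod_cast hr
    refine (pow_le_pow_left₀ (hR _ _) hr' k0).trans (le_of_eq ?_)
    rw [hg]
    simp only [mul_pow]
    rw [← pow_mul 4 (∑ j, (v j).primeFactors.card) k0, ← pow_mul 4 k0, mul_comm k0,
      ← pow_mul ((4 ^ B) ^ n) k k0, ← pow_mul ((4 ^ B) ^ n) k0 k, mul_comm k k0]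
  have hneg : ∀ ω ∈ T', ng (∏ j, s j) (∏ j, f θ ω j) ∈ (P3 (c3 J) s).powerset := by
    intro t _
    rw [mem_powerset, P3_c3]
    exact filter_subset _ _
  have h2 : ∑ ω ∈ T', g (ng (∏ j, s j) (∏ j, f θ ω j)) =
      ∑ E ∈ (P3 (c3 J) s).powerset,
        ((T'.filter (fun ω => ng (∏ j, s j) (∏ j, f θ ω j) = E)).card : ℝ) * g E := by
    rw [← sum_fiberwise_of_maps_to hneg]
    refine sum_congr rfl fun E _ => ?_
    rw [← nsmul_eq_mul, ← sum_const]
    refine sum_congr rfl fun t ht => ?_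
    rw [(mem_filter.1 ht).2]
  set Q : ℝ := C * D ^ k * S θ * (1 / 2) ^ (∏ j, s j).primeFactors.card *
      (∏ j, (gw 1 c (s j) * rr (re (e j)) (s j))) *
      (∏ j, A ^ (v j).primeFactors.card * (gw 1 n (v j) / v j)) *
      (∏ j, 1 / (u j : ℝ)) / (Real.log y) ^ n with hQ
  have h3 : ∀ E ∈ (P3 (c3 J) s).powerset,
      ((T'.filter (fun ω => ng (∏ j, s j) (∏ j, f θ ω j) = E)).card : ℝ) * g E ≤ Q * g E := by
    intro E _
    refine mul_le_mul_of_nonneg_right ?_ (hg0 E)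
    refine hcn θ y Y k hy00 hzy hyK hk s hs v hv u hu h8 E _ ((filter_subset _ _).trans hT') ?_
    intro ω hω
    rw [mem_filter] at hω
    obtain ⟨a1, a2, a3⟩ := hval ω hω.1
    exact ⟨a1, a2, a3, hω.2⟩
  have hlog : 0 ≤ Real.log y := Real.log_natCast_nonneg y
  have hv0 : ∀ j, 0 ≤ gw 1 n (v j) / (v j : ℝ) := fun j =>
    div_nonneg (gw_nonneg hzn (tup_mem hv j)) (Nat.cast_nonneg _)
  have hNBe : NBK k0 κ s = (1 / 2) ^ (P3 (c3 J) s).card * ∑ E ∈ (P3 (c3 J) s).powerset, g E := rfl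
  have hs0 : 0 ≤ NBK k0 κ s * ∏ j, (gw 1 c (s j) * rr (re (e j)) (s j)) := by
    rw [← hGw y s hs]
    refine mul_nonneg (mul_nonneg (hNB0 s) (prod_nonneg fun j _ => ph_nonneg _ _ _ _)) ?_
    exact prod_nonneg fun j _ => gw_nonneg hzn (tup_mem hs j)
  have hvA : (4 ^ k0 : ℝ) ^ (∑ j, (v j).primeFactors.card) *
      (∏ j, A ^ (v j).primeFactors.card * (gw 1 n (v j) / v j)) ≤
      ∏ j, (A * (4 * 4 ^ k0)) ^ (v j).primeFactors.card * (gw 1 n (v j) / v j) := by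
    rw [← prod_pow_eq_pow_sum, ← prod_mul_distrib]
    refine prod_le_prod (fun j _ => ?_) fun j _ => ?_
    · have := hv0 j
      positivity
    · rw [← mul_assoc, ← mul_pow]
      refine mul_le_mul_of_nonneg_right ?_ (hv0 j)
      refine pow_le_pow_left₀ (by positivity) ?_ _
      have h1 : (0 : ℝ) ≤ A * 4 ^ k0 := by positivity
      nlinarith
  calc ∑ ω ∈ T', r θ ω
      ≤ ∑ ω ∈ T', (4 ^ (z + 2)) ^ k0 * (((4 ^ B) ^ n) ^ k0) ^ k *
        (4 ^ k0) ^ (∑ j, (v j).primeFactors.card) * g (ng (∏ j, s j) (∏ j, f θ ω j)) :=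
        sum_le_sum h1
    _ = (4 ^ (z + 2)) ^ k0 * (((4 ^ B) ^ n) ^ k0) ^ k *
        (4 ^ k0) ^ (∑ j, (v j).primeFactors.card) *
          ∑ E ∈ (P3 (c3 J) s).powerset,
            ((T'.filter (fun ω => ng (∏ j, s j) (∏ j, f θ ω j) = E)).card : ℝ) * g E := by
        rw [← mul_sum, h2]
    _ ≤ (4 ^ (z + 2)) ^ k0 * (((4 ^ B) ^ n) ^ k0) ^ k *
        (4 ^ k0) ^ (∑ j, (v j).primeFactors.card) *
          ∑ E ∈ (P3 (c3 J) s).powerset, Q * g E :=
        mul_le_mul_of_nonneg_left (sum_le_sum h3) (by positivity)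
    _ = C * (4 ^ (z + 2)) ^ k0 * (D * ((4 ^ B) ^ n) ^ k0) ^ k * S θ *
          (NBK k0 κ s * ∏ j, (gw 1 c (s j) * rr (re (e j)) (s j))) *
          ((4 ^ k0) ^ (∑ j, (v j).primeFactors.card) *
            (∏ j, A ^ (v j).primeFactors.card * (gw 1 n (v j) / v j))) *
          (∏ j, 1 / (u j : ℝ)) / (Real.log y) ^ n := by
        rw [← mul_sum, hNBe, hQ, P3_c3, mul_pow D]
        ring
    _ ≤ C * (4 ^ (z + 2)) ^ k0 * (D * ((4 ^ B) ^ n) ^ k0) ^ k * S θ *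
          (NBK k0 κ s * ∏ j, (gw 1 c (s j) * rr (re (e j)) (s j))) *
          (∏ j, (A * (4 * 4 ^ k0)) ^ (v j).primeFactors.card * (gw 1 n (v j) / v j)) *
          (∏ j, 1 / (u j : ℝ)) / (Real.log y) ^ n := by
        refine div_le_div_of_nonneg_right ?_ (pow_nonneg hlog _)
        refine mul_le_mul_of_nonneg_right ?_ (prod_nonneg fun j _ => by positivity)
        refine mul_le_mul_of_nonneg_left hvA ?_
        have := hS θ
        exact mul_nonneg (by positivity) hs0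
    _ = _ := by
        rw [← hGw y s hs]

end Pool.Agent.W262.SQ
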