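import Mathlib
import Pool.Agent.W307.QF.Stm

/-!
# Project SQ (helper262): the moments of a function `R` of the twists

The statements of project QF (helper307) with `2 ^ rank` replaced by an arbitrary function `R`.
-/

set_option autoImplicit false

namespace Pool.Agent.W262.SQ

open Finset Polynomial Pool.Agent.W262.RK Pool.Agent.W307.RT Pool.Agent.W307.RS
  Pool.Agent.W307.QF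

/-- the bound by the local count -/
def RANKG (R : ℤ → ℤ → ℝ) : Prop := ∀ (J : Type) [Fintype J] [DecidableEq J] (a : Fin 3 → ℤ)
  (z y X k B : ℕ) (f : J → ℤ), 2 ≤ z → Gd z f → (∀ k, a k ≠ 0) → (∀ k, (a k).natAbs ≤ z) →
  a 0 - a 1 = a 2 → (∀ j, (f j).natAbs ≤ X ^ B) → 1 ≤ X → 1 ≤ y → X < (y + 1) ^ k →
    R (a 0 * ∏ j, f j) (a 1 * ∏ j, f j) ≤
      ((4 ^ (z + 2) * ((4 ^ B) ^ Fintype.card J) ^ k *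
        4 ^ (∑ j, (S2 z y f j).primeFactors.card) *
        NL (∏ j, S1 z y f j) (LLs (c3 J) (fun _ => a) (S1 z y f)
          (ng (∏ j, S1 z y f j) (∏ j, f j))) : ℕ) : ℝ)

/-- `AVGA` for the function `R`. -/
def AVGAG (R : ℤ → ℤ → ℝ) : Prop := ∀ (J : Type) [Fintype J] [DecidableEq J] (Ω Θ : Type) (T : Θ → Finset Ω)
  (L : Θ → ℕ) (f : Θ → Ω → J → ℤ) (S : Θ → ℝ) (a : Fin 3 → ℤ) (e : J → ℤ) (c B k0 : ℕ),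
  (∀ k, a k ≠ 0) → a 0 - a 1 = a 2 → (∀ j, e j = 0 ∨ ¬ IsSquare (e j)) → 1 ≤ k0 →
  Fintype.card J ≤ c → (∀ θ, 1 ≤ L θ) → (∀ θ, 0 ≤ S θ) →
  (∀ X0 : ℕ, ∃ B' : ℝ, ∀ θ, L θ ≤ X0 → ∑ ω ∈ T θ, (R (a 0 * ∏ j, f θ ω j) (a 1 * ∏ j, f θ ω j)) ^ k0 ≤ B' * S θ) →
  (∃ X1 : ℕ, ∀ θ, X1 ≤ L θ → ∀ ω ∈ T θ, ∀ j, (f θ ω j).natAbs ≤ L θ ^ B) →
  (∃ z1 : ℕ, ∀ z, z1 ≤ z → (∀ θ, ∀ ω ∈ T θ, Gd z (f θ ω)) ∧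
    ∃ (C D A : ℝ) (K y0 : ℕ), 0 ≤ C ∧ 1 ≤ D ∧ 1 ≤ A ∧ 1 ≤ K ∧
    ∀ (θ : Θ) (y Y k : ℕ), y0 ≤ y → z < y → y ^ K ≤ L θ → L θ < (y + 1) ^ k →
    ∀ s ∈ Tup J z y, ∀ v ∈ Tup J z y, ∀ u ∈ Tup J y Y, (∏ j, s j * v j * u j) ^ 8 ≤ L θ →
    ∀ (E : Finset ℕ) (T' : Finset Ω), T' ⊆ T θ →
    (∀ ω ∈ T', S1 z y (f θ ω) = s ∧ S2 z y (f θ ω) = v ∧ (∀ j, (u j : ℤ) ∣ f θ ω j) ∧
      ng (∏ j, s j) (∏ j, f θ ω j) = E) →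
    (T'.card : ℝ) ≤ C * D ^ k * S θ * (1 / 2) ^ (∏ j, s j).primeFactors.card *
      (∏ j, (gw 1 c (s j) * rr (re (e j)) (s j))) *
      (∏ j, A ^ (v j).primeFactors.card * (gw 1 (Fintype.card J) (v j) / v j)) *
      (∏ j, 1 / (u j : ℝ)) / (Real.log y) ^ (Fintype.card J)) →
  ∃ C2 : ℝ, ∀ θ, ∑ ω ∈ T θ, (R (a 0 * ∏ j, f θ ω j) (a 1 * ∏ j, f θ ω j)) ^ k0 ≤ C2 * S θ

/-- `AVA` for the function `R`. -/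
def AVAG (R : ℤ → ℤ → ℝ) : Prop := ∀ (J : Type) [Fintype J] [DecidableEq J] (P : J → ℤ[X]) (e : J → ℤ)
  (a : Fin 3 → ℤ) (k B : ℕ), DatA J P e → (∀ k, a k ≠ 0) → a 0 - a 1 = a 2 → 1 ≤ k →
  ∃ C : ℝ, ∀ (N : ℤ) (X : ℕ), 1 ≤ X → N.natAbs ≤ X ^ B →
    ∑ t ∈ (Icc 1 X).filter (fun t : ℕ => ∀ j, (P j).eval (N + (t : ℤ)) ≠ 0),
      (R (a 0 * ∏ j, (P j).eval (N + (t : ℤ)))
        (a 1 * ∏ j, (P j).eval (N + (t : ℤ)))) ^ k ≤ C * X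

/-- `AVB` for the function `R`. -/
def AVBG (R : ℤ → ℤ → ℝ) : Prop := ∀ (J : Type) [Fintype J] [DecidableEq J] (P : J → ℤ[X]) (e : J → ℤ)
  (a : Fin 3 → ℤ) (k B : ℕ), DatA J P e → (∀ j, (P j).eval 0 ≠ 0) → (∀ k, a k ≠ 0) →
  a 0 - a 1 = a 2 → 1 ≤ k →
  ∃ C : ℝ, ∀ (N : ℤ) (X : ℕ), 2 ≤ X → N.natAbs ≤ X ^ B →
    ∑ t ∈ (Icc 1 X).filter (fun t : ℕ => (N + (t : ℤ)).toNat.Prime ∧
      ∀ j, (P j).eval (N + (t : ℤ)) ≠ 0),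
      (R (a 0 * ∏ j, (P j).eval (N + (t : ℤ)))
        (a 1 * ∏ j, (P j).eval (N + (t : ℤ)))) ^ k ≤ C * (X / Real.log X)

/-- `AVC` for the function `R`. -/
def AVCG (R : ℤ → ℤ → ℝ) : Prop := ∀ (J1 J2 : Type) [Fintype J1] [DecidableEq J1] [Fintype J2] [DecidableEq J2]
  (α β : J1 → ℤ) (qa qb qc : J2 → ℤ) (a : Fin 3 → ℤ) (k B : ℕ), DatC α β qa qb qc →
  (∀ i, α i ≠ 0) → (∀ k, a k ≠ 0) → a 0 - a 1 = a 2 → 1 ≤ k →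
  ∃ C : ℝ, ∀ (N1 N2 : ℤ) (X : ℕ), 1 ≤ X → N1.natAbs ≤ X ^ B → N2.natAbs ≤ X ^ B →
    ∑ t ∈ (Icc 1 X ×ˢ Icc 1 X).filter (fun t : ℕ × ℕ =>
      IsCoprime (N1 + (t.1 : ℤ)) (N2 + (t.2 : ℤ)) ∧
      ∀ j, fb α β qa qb qc (N1 + (t.1 : ℤ)) (N2 + (t.2 : ℤ)) j ≠ 0),
      (R (a 0 * ∏ j, fb α β qa qb qc (N1 + (t.1 : ℤ)) (N2 + (t.2 : ℤ)) j)
        (a 1 * ∏ j, fb α β qa qb qc (N1 + (t.1 : ℤ)) (N2 + (t.2 : ℤ)) j)) ^ k ≤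
      C * X ^ 2

/-- `AVD` for the function `R`. -/
def AVDG (R : ℤ → ℤ → ℝ) : Prop := ∀ (J1 J2 : Type) [Fintype J1] [DecidableEq J1] [Fintype J2] [DecidableEq J2]
  (α β : J1 → ℤ) (qa qb qc : J2 → ℤ) (a : Fin 3 → ℤ) (k B : ℕ), DatC α β qa qb qc →
  (∀ k, a k ≠ 0) → a 0 - a 1 = a 2 → 1 ≤ k →
  ∃ C : ℝ, ∀ (U V : ℤ) (X : ℕ), 1 ≤ X → U.natAbs ≤ X ^ B → V.natAbs ≤ X ^ B →
    ∑ t ∈ (Ioc U (U + X) ×ˢ Ioc V (V + X)).filter (fun t : ℤ × ℤ =>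
      IsCoprime t.1 t.2 ∧ ∏ j, fb α β qa qb qc t.1 t.2 j ≠ 0),
      (R (a 0 * ∏ j, fb α β qa qb qc t.1 t.2 j)
        (a 1 * ∏ j, fb α β qa qb qc t.1 t.2 j)) ^ k ≤ C * X ^ 2

end Pool.Agent.W262.SQ
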