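import Mathlib
import Pool.Agent.W262.SQ.Stm
import Pool.Agent.W262.SH.Avg
import Pool.Agent.W342.RK2.LocL
import Pool.Agent.W991.QF.Ranke

/-!
# Project SQ: the number of the Selmer pairs is bounded by the local count
(adapted from helper991)
-/

set_option autoImplicit false

namespace Pool.Agent.W262.SQ

open Finset Pool.Agent.W262.RK Pool.Agent.W307.RT Pool.Agent.W307.RS Pool.Agent.W307.QF
  Pool.Agent.W262.SH Pool.Agent.W991.QF

/-- the number of the Selmer pairs -/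
noncomputable def SR (A B : ℤ) : ℝ := (SelS A B).ncard

theorem SR_nonneg (A B : ℤ) : 0 ≤ SR A B := Nat.cast_nonneg _

theorem rankg (hdesc : DESC5) (hloc : LOCL2) : RANKG SR := by
  intro J _ _ a z y X k B f hz hf ha0 ha haa hb hX hy hk
  have hDne : ∏ j, f j ≠ 0 := prod_ne_zero_iff.2 fun l _ => hf.1 l
  have hFne : ∀ k, a k * ∏ j, f j ≠ 0 := fun k => mul_ne_zero (ha0 k) hDne
  have hsub : a 0 * ∏ j, f j - a 1 * ∏ j, f j = a 2 * ∏ j, f j := by rw [← haa]; ring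
  have hmem : S1 z y f ∈ Tup J z y := S1_Tup hf
  have hmd : ∏ j, S1 z y f j ∣ PP z y := Tup_prod_dvd hmem
  have hPSof : ∀ p : ℕ, p.Prime → p ∣ ∏ j, S1 z y f j → p ∈ PS z y := fun p hp h =>
    (prime_dvd_PP hp).1 (h.trans hmd)
  have hna : ∀ p : ℕ, p.Prime → z < p → ∀ k, ¬ (p : ℤ) ∣ a k := by
    intro p hp h1 k hd
    have h2 := Nat.le_of_dvd (Int.natAbs_pos.2 (ha0 k)) (Int.natCast_dvd.1 hd)
    have h3 := ha k
    omega
  have hnκ : ∀ p : ℕ, p.Prime → p ∣ ∏ j, S1 z y f j → ∀ k, ¬ (p : ℤ) ∣ a k := fun p hp h =>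
    hna p hp (mem_PS.1 (hPSof p hp h)).1.1
  have hodd : ∀ p : ℕ, p.Prime → p ∣ ∏ j, S1 z y f j → p ≠ 2 := by
    intro p hp h
    have h1 := (mem_PS.1 (hPSof p hp h)).1.1
    omega
  have hd := hdesc (∏ j, S1 z y f j)
    (LLs (c3 J) (fun _ => a) (S1 z y f) (ng (∏ j, S1 z y f j) (∏ j, f j)))
    (a 0 * ∏ j, f j) (a 1 * ∏ j, f j) (hFne 0) (hFne 1)
    (fun h => hFne 2 (by rw [← hsub, h, sub_self]))
    (by
      rw [← Nat.not_even_iff_odd, even_iff_two_dvd]
      intro h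
      exact hodd 2 Nat.prime_two h rfl)
    ((PP_squarefree z y).squarefree_of_dvd hmd)
    (fun p hp hpd => ⟨fun j hj =>
        (Pool.Agent.W342.RK2.xcl _ _ _ p hp (hodd p hp hpd) (hnκ p hp hpd)).1,
      fun a1 b1 c1 d1 a2 b2 c2 d2 e1 e2 j hj =>
        (Pool.Agent.W342.RK2.xcl _ _ _ p hp (hodd p hp hpd) (hnκ p hp hpd)).2
          a1 b1 c1 d1 a2 b2 c2 d2 (e1 j hj) (e2 j hj)⟩)
    (fun p hp hpd e1 e2 he1 he2 hls j hj => by
      have hpp : p.Prime := Fact.out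
      obtain ⟨hpS, hpf, hpf2⟩ := (mem_S1 hpp).1 hj
      have hzp := (mem_PS.1 hpS).1.1
      have hsplit : ∏ l, f l = f j * ∏ l ∈ univ.erase j, f l :=
        (mul_prod_erase univ f (mem_univ j)).symm
      have hE : ¬ (p : ℤ) ∣ ∏ l ∈ univ.erase j, f l := by
        intro h
        obtain ⟨l, hl, hpl⟩ := ((Nat.prime_iff_prime_int.1 hpp).dvd_finsetProd_iff _).1 h
        exact hf.2 p hpp hzp l j (ne_of_mem_erase hl) ⟨hpl, hpf⟩
      have hD : (p : ℤ) ∣ ∏ l, f l := by rw [hsplit]; exact hpf.mul_right _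
      have hD2 : ¬ (p : ℤ) ^ 2 ∣ ∏ l, f l := by
        rw [hsplit]
        intro h
        refine hpf2 (IsCoprime.dvd_of_dvd_mul_right ?_ h)
        exact IsCoprime.pow_left
          ((Prime.coprime_iff_not_dvd (Nat.prime_iff_prime_int.1 hpp)).2 hE)
      refine hloc (c3 J j) a _ p _ _ (hodd p hpp hpd) (hnκ p hpp hpd)
        (locH hpp (hna p hpp hzp) haa hD hD2 ?_) e1 e2 he1 he2 hls
      rw [decide_eq_true_eq]
      unfold ng
      rw [mem_filter, Nat.mem_primeFactors]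
      constructor
      · exact fun h => h.2
      · intro h5
        exact ⟨⟨hpp, hpd, prod_ne_zero_iff.2 fun l _ => (Tup_pos hmem l).ne'⟩, h5⟩)
  replace hd := hd.2
  rw [hsub] at hd
  unfold SR
  refine Nat.cast_le.2 (hd.trans (Nat.mul_le_mul_right _ ?_))
  have hc := bad (y := y) hz hf ha0 ha hX hy hb hk
  calc 4 ^ (((2 * (a 0 * ∏ j, f j) * (a 1 * ∏ j, f j) *
        (a 2 * ∏ j, f j)).natAbs.primeFactors.filter (fun q => ¬ q ∣ ∏ j, S1 z y f j)).card + 2)
      ≤ 4 ^ ((z + 2) + (Fintype.card J * (B * k)) + ∑ j, (S2 z y f j).primeFactors.card) :=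
        Nat.pow_le_pow_right (by norm_num) (by omega)
    _ = _ := by
        rw [pow_add, pow_add]
        congr 2
        rw [← pow_mul, ← pow_mul]
        congr 1
        ring

end Pool.Agent.W262.SQ
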