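import Mathlib
import Pool.Agent.W307.QF.Main
import Pool.Agent.W262.SQ.Avga
import Pool.Agent.W262.SQ.Ava
import Pool.Agent.W262.SQ.Avb
import Pool.Agent.W262.SQ.Avc
import Pool.Agent.W262.SQ.Avd
import Pool.Agent.W262.SQ.Rank
import Pool.Agent.W262.SH.Exp

/-!
# Project SQ: the moments of the number of the Selmer pairs
-/

set_option autoImplicit false

namespace Pool.Agent.W262.SQ

open Pool.Agent.W262.SH

theorem avga : AVGAG SR :=
  avga_gen SR_nonneg (Pool.Agent.W305.RS.ANTU.antu_of Pool.Agent.W924.RS.rsa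
    Pool.Agent.W240.RS.rva Pool.Agent.W591.RK2.ru Pool.Agent.W358.RK2.gr)
    Pool.Agent.W925.RS.subbk (rankg parts.desc parts.loc)
    (Pool.Agent.W216.QF.mae_of Pool.Agent.W349.QF.atg
      (Pool.Agent.W762.QF.gbe_of Pool.Agent.W400.QF.mer) Pool.Agent.W790.QF.expe)

theorem ava : AVAG SR :=
  ava_of SR_nonneg avga Pool.Agent.W307.QF.cnte Pool.Agent.W307.QF.merl Pool.Agent.W216.QF.cop

theorem avb : AVBG SR :=
  avb_of SR_nonneg avga Pool.Agent.W307.QF.cnte Pool.Agent.W307.QF.merl Pool.Agent.W216.QF.cop ava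

theorem avd : AVDG SR :=
  avd_of SR_nonneg (avc_of SR_nonneg avga Pool.Agent.W307.QF.cnte Pool.Agent.W307.QF.merl
    Pool.Agent.W315.QF.nzb Pool.Agent.W863.QF.ncz Pool.Agent.W405.RS.avhs)

end Pool.Agent.W262.SQ
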