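import Mathlib
import Pool.Agent.W262.SQ.Main
import Pool.Agent.W262.SH.FamK2

/-!
# Project SQ: the moments of `2 ^ rank * #Ш[2]` of the twists by the products of the `D i`
-/

set_option autoImplicit false

namespace Pool.Agent.W262.SQ

open Finset Polynomial Pool.Agent.W262.SH Pool.Agent.W307.QF

/-- irreducible polynomials of degree one or two, pairwise not associated -/
structure Irr {T : Type} (P : T → ℤ[X]) : Prop where
  deg : ∀ i, (P i).natDegree = 1 ∨ (P i).natDegree = 2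
  irr : ∀ i, Irreducible ((P i).map (Int.castRingHom ℚ))
  ne : ∀ i j, i ≠ j → ¬ Associated ((P i).map (Int.castRingHom ℚ)) ((P j).map (Int.castRingHom ℚ))

theorem Irr.sub {T : Type} {P : T → ℤ[X]} (h : Irr P) (Q : T → Prop) :
    Irr (fun i : {i : T // Q i} => P i) :=
  ⟨fun i => h.deg i, fun i => h.irr i, fun i j hij => h.ne i j (fun h' => hij (Subtype.ext h'))⟩

theorem Irr.dat {T : Type} [Fintype T] {P : T → ℤ[X]} (h : Irr P) :
    ∃ e : T → ℤ, DatA T P e := by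
  choose e p0 he hp using fun i => Pool.Agent.W307.QF.nzl (P i) (h.deg i) (h.irr i)
  refine ⟨e, he, ⟨∑ i, p0 i, fun p hpp hlt j => hp j p hpp (lt_of_le_of_lt
    (single_le_sum (f := p0) (fun _ _ => Nat.zero_le _) (mem_univ j)) hlt)⟩, fun i j hij => ?_,
    fun i => ?_⟩
  · rcases (h.irr i).isCoprime_or_dvd ((P j).map (Int.castRingHom ℚ)) with h' | h'
    · exact h'
    · exact absurd ((h.irr i).associated_of_dvd (h.irr j) h') (h.ne i j hij)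
  · have h1 := (h.irr i).separable
    rw [Polynomial.separable_def] at h1
    rwa [Polynomial.derivative_map] at h1

theorem wt_le_SR {A B : ℤ} (hA : A ≠ 0) (hB : B ≠ 0) (hAB : A ≠ B) : wt A B ≤ SR A B :=
  wt_le parts.desc parts.sh1 parts.sh2 hA hB hAB

open scoped Classical in
theorem one_le_wt {A B : ℤ} (hA : A ≠ 0) (hB : B ≠ 0) (hAB : A ≠ B) : 1 ≤ wt A B := by
  have hf := fin_sha parts.desc parts.sh1 parts.sh2 hA hB hAB
  unfold wt
  have h1 : (1 : ℝ) ≤ (2 : ℝ) ^ Module.finrank ℤ (E A B).toAffine.Point :=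
    one_le_pow₀ (by norm_num)
  have h2 : (1 : ℝ) ≤ Nat.card {c : Sha (E A B) // c + c = 0} := by
    haveI : Nonempty {c : Sha (E A B) // c + c = 0} := ⟨⟨0, by simp⟩⟩
    exact_mod_cast Nat.card_pos
  nlinarith

/-- the product of the `D i`, `i ∈ s` -/
theorem prod_D {I T : Type} [DecidableEq I] [Fintype T] (b : I → ℤ) (g : T → I) (f : T → ℤ)
    (s : Finset I) :
    ∏ i ∈ s, (b i * ∏ j ∈ univ.filter (fun j => g j = i), f j) =
      (∏ i ∈ s, b i) * ∏ j : {j : T // g j ∈ s}, f j := by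
  classical
  rw [prod_mul_distrib]
  congr 1
  have h1 : ∏ j : {j : T // g j ∈ s}, f j = ∏ j ∈ univ.filter (fun j => g j ∈ s), f j := by
    rw [← prod_subtype_eq_prod_filter, subtype_univ]
  rw [h1, ← prod_fiberwise_of_maps_to (s := univ.filter (fun j => g j ∈ s)) (t := s) (g := g)
    (fun j hj => (mem_filter.1 hj).2)]
  refine prod_congr rfl fun i hi => ?_
  refine prod_congr ?_ fun _ _ => rfl
  ext j
  simp only [mem_filter, mem_univ, true_and]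
  exact ⟨fun h => ⟨by rw [h]; exact hi, h⟩, fun h => h.2⟩

/-- `D i (t) = b i * ∏ P j (t)`, the product over the `j` with `g j = i` -/
def Dp {I T : Type} [DecidableEq I] [Fintype T] (b : I → ℤ) (g : T → I) (P : T → ℤ[X]) (t : ℤ)
    (i : I) : ℤ :=
  b i * ∏ j ∈ univ.filter (fun j => g j = i), (P j).eval t

theorem prod_Dp {I T : Type} [DecidableEq I] [Fintype T] (b : I → ℤ) (g : T → I) (P : T → ℤ[X])
    (s : Finset I) (t : ℤ) :
    ∏ i ∈ s, Dp b g P t i = (∏ i ∈ s, b i) * ∏ j : {j : T // g j ∈ s}, (P j).eval t :=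
  prod_D b g (fun j => (P j).eval t) s

/-- the three coefficients -/
def co (A B b : ℤ) : Fin 3 → ℤ := ![b * A, b * B, b * (A - B)]

theorem co_ne {A B b : ℤ} (hA : A ≠ 0) (hB : B ≠ 0) (hAB : A ≠ B) (hb : b ≠ 0) (k : Fin 3) :
    co A B b k ≠ 0 := by
  fin_cases k
  · exact mul_ne_zero hb hA
  · exact mul_ne_zero hb hB
  · exact mul_ne_zero hb (sub_ne_zero.2 hAB)

theorem co_sub (A B b : ℤ) : co A B b 0 - co A B b 1 = co A B b 2 := by
  show b * A - b * B = b * (A - B)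
  ring

theorem wt_co {A B b d : ℤ} (hA : A ≠ 0) (hB : B ≠ 0) (hAB : A ≠ B) (hbd : b * d ≠ 0) (e : ℕ) :
    wt ((b * d) * A) ((b * d) * B) ^ e ≤ SR (co A B b 0 * d) (co A B b 1 * d) ^ e := by
  have e0 : co A B b 0 * d = (b * d) * A := by
    show b * A * d = b * d * A
    ring
  have e1 : co A B b 1 * d = (b * d) * B := by
    show b * B * d = b * d * B
    ring
  rw [e0, e1]
  exact pow_le_pow_left₀ (wt_nonneg _ _) (wt_le_SR (mul_ne_zero hbd hA) (mul_ne_zero hbd hB)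
    (fun h => hAB (mul_left_cancel₀ hbd h))) e

theorem natAbs_le {N : ℤ} {M L : ℕ} (h : |N| ≤ (M : ℤ) ^ L) : N.natAbs ≤ M ^ L := by
  have : ((N.natAbs : ℕ) : ℤ) ≤ ((M ^ L : ℕ) : ℤ) := by
    rw [Int.natCast_natAbs]
    push_cast
    exact h
  exact_mod_cast this

/-- a bound for all the subsets -/
theorem all_s {I : Type} [Fintype I] {Q : Type} (V : Q → Prop) (F : Finset I → Q → ℝ)
    (S : Q → ℝ) (hS : ∀ q, V q → 0 ≤ S q)
    (h : ∀ s, ∃ C : ℝ, ∀ q, V q → F s q ≤ C * S q) :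
    ∃ C : ℝ, 0 ≤ C ∧ ∀ q, V q → ∀ s, F s q ≤ C * S q := by
  classical
  choose C hC using h
  refine ⟨∑ s, |C s|, sum_nonneg fun s _ => abs_nonneg _, fun q hq s => (hC s q hq).trans ?_⟩
  refine mul_le_mul_of_nonneg_right ?_ (hS q hq)
  exact (le_abs_self _).trans (single_le_sum (f := fun s => |C s|) (fun s _ => abs_nonneg _)
    (mem_univ s))

/-- short intervals -/
theorem sA (e : ℕ) (he : 1 ≤ e) {I T : Type} [Fintype I] [DecidableEq I] [Fintype T] (A B : ℤ)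
    (b : I → ℤ) (g : T → I) (P : T → ℤ[X]) (hP : Irr P) (hA : A ≠ 0) (hB : B ≠ 0) (hAB : A ≠ B)
    (hb : ∀ i, b i ≠ 0) (L : ℕ) :
    ∃ C : ℝ, 0 ≤ C ∧ ∀ q : ℤ × ℕ, (1 ≤ q.2 ∧ |q.1| ≤ (q.2 : ℤ) ^ L) → ∀ s : Finset I,
      ∑ t ∈ (Ioc q.1 (q.1 + q.2)).filter (fun t => ∀ i, Dp b g P t i ≠ 0),
        wt ((∏ i ∈ s, Dp b g P t i) * A) ((∏ i ∈ s, Dp b g P t i) * B) ^ e ≤ C * q.2 := by
  classical
  refine all_s (fun q : ℤ × ℕ => 1 ≤ q.2 ∧ |q.1| ≤ (q.2 : ℤ) ^ L)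
    (fun s q => ∑ t ∈ (Ioc q.1 (q.1 + q.2)).filter (fun t => ∀ i, Dp b g P t i ≠ 0),
        wt ((∏ i ∈ s, Dp b g P t i) * A) ((∏ i ∈ s, Dp b g P t i) * B) ^ e)
    (fun q => (q.2 : ℝ)) (fun q _ => Nat.cast_nonneg _) (fun s => ?_)
  obtain ⟨ε, hdat⟩ := (hP.sub (fun j => g j ∈ s)).dat
  have hbs : ∏ i ∈ s, b i ≠ 0 := prod_ne_zero_iff.2 fun i _ => hb i
  obtain ⟨C, hC⟩ := ava {j : T // g j ∈ s} (fun j => P j) ε (co A B (∏ i ∈ s, b i)) e L hdat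
    (co_ne hA hB hAB hbs) (co_sub _ _ _) he
  refine ⟨C, ?_⟩
  rintro ⟨N, M⟩ ⟨hM, hN⟩
  simp only at hM hN ⊢
  refine le_trans ?_ (hC N M hM (natAbs_le hN))
  have hinj : Set.InjOn (fun t : ℕ => N + (t : ℤ)) ((Icc 1 M).filter
      (fun t : ℕ => ∀ j : {j : T // g j ∈ s}, (P j).eval (N + (t : ℤ)) ≠ 0) : Set ℕ) := by
    intro a _ b _ hab
    have : N + (a : ℤ) = N + (b : ℤ) := hab
    omega
  have h1 := sum_image (f := fun t : ℤ => SR (co A B (∏ i ∈ s, b i) 0 *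
    ∏ j : {j : T // g j ∈ s}, (P j).eval t) (co A B (∏ i ∈ s, b i) 1 *
    ∏ j : {j : T // g j ∈ s}, (P j).eval t) ^ e) hinj
  refine le_trans ?_ (le_of_eq h1)
  refine le_trans (sum_le_sum (fun t ht => ?_)) (sum_le_sum_of_subset_of_nonneg ?_ ?_)
  · have ht2 : ∏ i ∈ s, Dp b g P t i ≠ 0 :=
      prod_ne_zero_iff.2 fun i _ => (mem_filter.1 ht).2 i
    rw [prod_Dp] at ht2 ⊢
    exact wt_co hA hB hAB ht2 e
  · intro t ht
    rw [mem_filter, mem_Ioc] at ht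
    obtain ⟨⟨ht1, ht2⟩, ht3⟩ := ht
    rw [mem_image]
    have h5 : N + (((t - N).toNat : ℕ) : ℤ) = t := by omega
    refine ⟨(t - N).toNat, ?_, h5⟩
    rw [mem_filter, mem_Icc]
    refine ⟨by omega, fun j => ?_⟩
    rw [h5]
    have h6 := ht3 (g j)
    unfold Dp at h6
    exact prod_ne_zero_iff.1 (right_ne_zero_of_mul h6) j (mem_filter.2 ⟨mem_univ _, rfl⟩)
  · intro t _ _
    exact pow_nonneg (SR_nonneg _ _) _

/-- the primes of short intervals -/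
theorem sB (e : ℕ) (he : 1 ≤ e) {I T : Type} [Fintype I] [DecidableEq I] [Fintype T] (A B : ℤ)
    (b : I → ℤ) (g : T → I) (P : T → ℤ[X]) (hP : Irr P) (hP0 : ∀ j, (P j).eval 0 ≠ 0)
    (hA : A ≠ 0) (hB : B ≠ 0) (hAB : A ≠ B) (hb : ∀ i, b i ≠ 0) (L : ℕ) :
    ∃ C : ℝ, 0 ≤ C ∧ ∀ q : ℕ × ℕ, (2 ≤ q.2 ∧ q.1 ≤ q.2 ^ L) → ∀ s : Finset I,
      ∑ p ∈ (Ioc q.1 (q.1 + q.2)).filter
        (fun p : ℕ => p.Prime ∧ ∀ i, Dp b g P (p : ℤ) i ≠ 0),
        wt ((∏ i ∈ s, Dp b g P (p : ℤ) i) * A) ((∏ i ∈ s, Dp b g P (p : ℤ) i) * B) ^ e ≤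
          C * (q.2 / Real.log q.2) := by
  classical
  refine all_s (fun q : ℕ × ℕ => 2 ≤ q.2 ∧ q.1 ≤ q.2 ^ L)
    (fun s q => ∑ p ∈ (Ioc q.1 (q.1 + q.2)).filter
        (fun p : ℕ => p.Prime ∧ ∀ i, Dp b g P (p : ℤ) i ≠ 0),
        wt ((∏ i ∈ s, Dp b g P (p : ℤ) i) * A) ((∏ i ∈ s, Dp b g P (p : ℤ) i) * B) ^ e)
    (fun q => (q.2 / Real.log q.2 : ℝ))
    (fun q _ => div_nonneg (Nat.cast_nonneg _) (Real.log_natCast_nonneg _)) (fun s => ?_)
  obtain ⟨ε, hdat⟩ := (hP.sub (fun j => g j ∈ s)).dat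
  have hbs : ∏ i ∈ s, b i ≠ 0 := prod_ne_zero_iff.2 fun i _ => hb i
  obtain ⟨C, hC⟩ := avb {j : T // g j ∈ s} (fun j => P j) ε (co A B (∏ i ∈ s, b i)) e L hdat
    (fun j => hP0 j) (co_ne hA hB hAB hbs) (co_sub _ _ _) he
  refine ⟨C, ?_⟩
  rintro ⟨N, M⟩ ⟨hM, hN⟩
  simp only at hM hN ⊢
  refine le_trans ?_ (hC (N : ℤ) M hM (by simpa using hN))
  have hinj : Set.InjOn (fun t : ℕ => N + t) ((Icc 1 M).filter
      (fun t : ℕ => ((N : ℤ) + (t : ℤ)).toNat.Prime ∧ ∀ j : {j : T // g j ∈ s},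
        (P j).eval ((N : ℤ) + (t : ℤ)) ≠ 0) : Set ℕ) := by
    intro a _ b _ hab
    have : N + a = N + b := hab
    omega
  have h1 := sum_image (f := fun t : ℕ => SR (co A B (∏ i ∈ s, b i) 0 *
    ∏ j : {j : T // g j ∈ s}, (P j).eval (t : ℤ)) (co A B (∏ i ∈ s, b i) 1 *
    ∏ j : {j : T // g j ∈ s}, (P j).eval (t : ℤ)) ^ e) hinj
  simp only [Nat.cast_add] at h1
  refine le_trans ?_ (le_of_eq h1)
  refine le_trans (sum_le_sum (fun t ht => ?_)) (sum_le_sum_of_subset_of_nonneg ?_ ?_)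
  · have ht2 : ∏ i ∈ s, Dp b g P (t : ℤ) i ≠ 0 :=
      prod_ne_zero_iff.2 fun i _ => (mem_filter.1 ht).2.2 i
    rw [prod_Dp] at ht2 ⊢
    exact wt_co hA hB hAB ht2 e
  · intro t ht
    rw [mem_filter, mem_Ioc] at ht
    obtain ⟨⟨ht1, ht2⟩, htp, ht3⟩ := ht
    rw [mem_image]
    have h5 : N + (t - N) = t := by omega
    have h6 : (N : ℤ) + ((t - N : ℕ) : ℤ) = t := by omega
    refine ⟨t - N, ?_, h5⟩
    rw [mem_filter, mem_Icc]
    refine ⟨by omega, ?_, fun j => ?_⟩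
    · rw [h6, Int.toNat_natCast]
      exact htp
    · rw [h6]
      have h7 := ht3 (g j)
      unfold Dp at h7
      exact prod_ne_zero_iff.1 (right_ne_zero_of_mul h7) j (mem_filter.2 ⟨mem_univ _, rfl⟩)
  · intro t _ _
    exact pow_nonneg (SR_nonneg _ _) _

end Pool.Agent.W262.SQ
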