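import Mathlib
import Pool.Agent.W262.SQ.Fam

/-!
# Project SQ: binary forms, multiquadratic fields, abelian varieties
-/

set_option autoImplicit false

namespace Pool.Agent.W262.SQ

open Finset Polynomial Pool.Agent.W262.SH Pool.Agent.W307.QF

/-- `D i (u, v) = b i * ∏ (α j * u + β j * v) * ∏ (qa j * u ^ 2 + qb j * u * v + qc j * v ^ 2)`, the
products over the `j` with `g1 j = i` and with `g2 j = i` -/
def Db {I T1 T2 : Type} [DecidableEq I] [Fintype T1] [Fintype T2] (b : I → ℤ) (g1 : T1 → I)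
    (g2 : T2 → I) (α β : T1 → ℤ) (qa qb qc : T2 → ℤ) (t : ℤ × ℤ) (i : I) : ℤ :=
  b i * ((∏ j ∈ univ.filter (fun j => g1 j = i), (α j * t.1 + β j * t.2)) *
    ∏ j ∈ univ.filter (fun j => g2 j = i), (qa j * t.1 ^ 2 + qb j * (t.1 * t.2) + qc j * t.2 ^ 2))

theorem prod_Db {I T1 T2 : Type} [DecidableEq I] [Fintype T1] [Fintype T2] (b : I → ℤ)
    (g1 : T1 → I) (g2 : T2 → I) (α β : T1 → ℤ) (qa qb qc : T2 → ℤ) (s : Finset I) (t : ℤ × ℤ) :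
    ∏ i ∈ s, Db b g1 g2 α β qa qb qc t i = (∏ i ∈ s, b i) *
      ∏ j : {j : T1 // g1 j ∈ s} ⊕ {j : T2 // g2 j ∈ s},
        fb (fun j : {j : T1 // g1 j ∈ s} => α j) (fun j => β j)
          (fun j : {j : T2 // g2 j ∈ s} => qa j) (fun j => qb j) (fun j => qc j) t.1 t.2 j := by
  classical
  have h1 := prod_D b g1 (fun j => α j * t.1 + β j * t.2) s
  have h2 := prod_D (fun _ => 1) g2
    (fun j => qa j * t.1 ^ 2 + qb j * (t.1 * t.2) + qc j * t.2 ^ 2) s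
  simp only [one_mul, prod_const_one] at h2
  have h3 : ∀ i, Db b g1 g2 α β qa qb qc t i =
      (b i * ∏ j ∈ univ.filter (fun j => g1 j = i), (α j * t.1 + β j * t.2)) *
      ∏ j ∈ univ.filter (fun j => g2 j = i),
        (qa j * t.1 ^ 2 + qb j * (t.1 * t.2) + qc j * t.2 ^ 2) := by
    intro i
    unfold Db
    rw [mul_assoc]
  rw [Fintype.prod_sum_type, prod_congr rfl (fun i _ => h3 i), prod_mul_distrib, h1, h2,
    mul_assoc]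
  rfl

/-- coprime pairs of short squares -/
theorem sC (e : ℕ) (he : 1 ≤ e) {I T1 T2 : Type} [Fintype I] [DecidableEq I] [Fintype T1]
    [Fintype T2] (A B : ℤ) (b : I → ℤ) (g1 : T1 → I) (g2 : T2 → I) (α β : T1 → ℤ)
    (qa qb qc : T2 → ℤ) (hD : DatC α β qa qb qc) (hA : A ≠ 0) (hB : B ≠ 0) (hAB : A ≠ B)
    (hb : ∀ i, b i ≠ 0) (L : ℕ) :
    ∃ C : ℝ, 0 ≤ C ∧ ∀ q : ℤ × ℤ × ℕ,
      (1 ≤ q.2.2 ∧ |q.1| ≤ (q.2.2 : ℤ) ^ L ∧ |q.2.1| ≤ (q.2.2 : ℤ) ^ L) → ∀ s : Finset I,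
      ∑ t ∈ (Ioc q.1 (q.1 + q.2.2) ×ˢ Ioc q.2.1 (q.2.1 + q.2.2)).filter
        (fun t : ℤ × ℤ => IsCoprime t.1 t.2 ∧ ∀ i, Db b g1 g2 α β qa qb qc t i ≠ 0),
        wt ((∏ i ∈ s, Db b g1 g2 α β qa qb qc t i) * A)
          ((∏ i ∈ s, Db b g1 g2 α β qa qb qc t i) * B) ^ e ≤ C * (q.2.2 : ℝ) ^ 2 := by
  classical
  refine all_s (fun q : ℤ × ℤ × ℕ =>
      1 ≤ q.2.2 ∧ |q.1| ≤ (q.2.2 : ℤ) ^ L ∧ |q.2.1| ≤ (q.2.2 : ℤ) ^ L)
    (fun s q => ∑ t ∈ (Ioc q.1 (q.1 + q.2.2) ×ˢ Ioc q.2.1 (q.2.1 + q.2.2)).filter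
        (fun t : ℤ × ℤ => IsCoprime t.1 t.2 ∧ ∀ i, Db b g1 g2 α β qa qb qc t i ≠ 0),
        wt ((∏ i ∈ s, Db b g1 g2 α β qa qb qc t i) * A)
          ((∏ i ∈ s, Db b g1 g2 α β qa qb qc t i) * B) ^ e)
    (fun q => (q.2.2 : ℝ) ^ 2) (fun q _ => by positivity) (fun s => ?_)
  have hbs : ∏ i ∈ s, b i ≠ 0 := prod_ne_zero_iff.2 fun i _ => hb i
  have hD' : DatC (fun j : {j : T1 // g1 j ∈ s} => α j) (fun j => β j)
      (fun j : {j : T2 // g2 j ∈ s} => qa j) (fun j => qb j) (fun j => qc j) :=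
    ⟨fun i j hij => hD.lin i j (fun h => hij (Subtype.ext h)), fun i => hD.nz0 i,
      fun j => hD.irr j, fun i j hij => hD.quad i j (fun h => hij (Subtype.ext h))⟩
  obtain ⟨C, hC⟩ := avd {j : T1 // g1 j ∈ s} {j : T2 // g2 j ∈ s} (fun j => α j) (fun j => β j)
    (fun j => qa j) (fun j => qb j) (fun j => qc j) (co A B (∏ i ∈ s, b i)) e L hD'
    (co_ne hA hB hAB hbs) (co_sub _ _ _) he
  refine ⟨C, ?_⟩
  rintro ⟨U, V, X⟩ ⟨hX, hU, hV⟩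
  simp only at hX hU hV ⊢
  refine le_trans ?_ (hC U V X hX (natAbs_le hU) (natAbs_le hV))
  set F : ℤ × ℤ → ℝ := fun t => SR (co A B (∏ i ∈ s, b i) 0 *
      ∏ j : {j : T1 // g1 j ∈ s} ⊕ {j : T2 // g2 j ∈ s},
        fb (fun j : {j : T1 // g1 j ∈ s} => α j) (fun j => β j)
          (fun j : {j : T2 // g2 j ∈ s} => qa j) (fun j => qb j) (fun j => qc j) t.1 t.2 j)
    (co A B (∏ i ∈ s, b i) 1 *
      ∏ j : {j : T1 // g1 j ∈ s} ⊕ {j : T2 // g2 j ∈ s},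
        fb (fun j : {j : T1 // g1 j ∈ s} => α j) (fun j => β j)
          (fun j : {j : T2 // g2 j ∈ s} => qa j) (fun j => qb j) (fun j => qc j) t.1 t.2 j) ^ e
    with hF
  refine le_trans (sum_le_sum (g := F) (fun t ht => ?_)) (sum_le_sum_of_subset_of_nonneg ?_ ?_)
  · have ht2 : ∏ i ∈ s, Db b g1 g2 α β qa qb qc t i ≠ 0 :=
      prod_ne_zero_iff.2 fun i _ => (mem_filter.1 ht).2.2 i
    rw [prod_Db] at ht2 ⊢
    exact wt_co hA hB hAB ht2 e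
  · intro t ht
    rw [mem_filter] at ht ⊢
    refine ⟨ht.1, ht.2.1, ?_⟩
    have ht2 : ∏ i ∈ s, Db b g1 g2 α β qa qb qc t i ≠ 0 :=
      prod_ne_zero_iff.2 fun i _ => ht.2.2 i
    rw [prod_Db] at ht2
    exact right_ne_zero_of_mul ht2
  · intro t _ _
    exact pow_nonneg (SR_nonneg _ _) _

open scoped Classical in
/-- the sum over a finite set for the multiquadratic fields -/
theorem sumB (hphi : PHI) (hgrp : GRP) (hrk : RKK) {l : ℕ} {Ω : Type} (T : Finset Ω)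
    (A B : Ω → ℤ) (D : Ω → Fin l → ℤ) (K : ℝ) (e : ℕ) (r : Ω → ℕ)
    (hA : ∀ ω ∈ T, A ω ≠ 0) (hB : ∀ ω ∈ T, B ω ≠ 0) (hAB : ∀ ω ∈ T, A ω ≠ B ω)
    (hD : ∀ ω ∈ T, ∀ i, D ω i ≠ 0)
    (hr : ∀ ω ∈ T, ∃ j : (Fin (r ω) → ZMod (2 ^ (l + 1))) →+ ShaK (E (A ω) (B ω)) (KD (D ω)),
      Function.Injective j)
    (hs : ∀ s : Finset (Fin l), ∑ ω ∈ T,
      wt ((∏ i ∈ s, D ω i) * A ω) ((∏ i ∈ s, D ω i) * B ω) ^ (e * 2 ^ l) ≤ K) :
    ∑ ω ∈ T, (2 : ℝ) ^ (e * (Module.finrank ℤ (Pt (E (A ω) (B ω)) (KD (D ω))) + r ω)) ≤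
      2 ^ l * K := by
  calc _ ≤ ∑ ω ∈ T, ∑ s : Finset (Fin l),
        wt ((∏ i ∈ s, D ω i) * A ω) ((∏ i ∈ s, D ω i) * B ω) ^ (e * 2 ^ l) := by
        refine sum_le_sum fun ω hω => ?_
        obtain ⟨j, hj⟩ := hr ω hω
        exact ptBk parts.desc parts.sh1 parts.sh2 hphi hgrp hrk _ (hA ω hω) (hB ω hω) (hAB ω hω)
          (hD ω hω) e (r ω) j hj
    _ ≤ ∑ s : Finset (Fin l), K := by
        rw [sum_comm]
        exact sum_le_sum fun s _ => hs s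
    _ = 2 ^ l * K := by
        rw [sum_const, card_univ, Fintype.card_finset, Fintype.card_fin, nsmul_eq_mul]
        push_cast
        rfl

open scoped Classical in
/-- the sum over a finite set for the twisted powers -/
theorem sumD (hlat : LAT) (hphi : PHIA2) (hgrp : GRP) (hrk : RKA2) {l d : ℕ} (hd : 0 < d)
    {Ω : Type} (T : Finset Ω) (A B : Ω → ℤ) (D : Ω → Fin l → ℤ)
    (ρ : (Fin l → ℤˣ) →* (Matrix (Fin d) (Fin d) ℤ)ˣ) (K : ℝ) (e : ℕ) (r : Ω → ℕ)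
    (hA : ∀ ω ∈ T, A ω ≠ 0) (hB : ∀ ω ∈ T, B ω ≠ 0) (hAB : ∀ ω ∈ T, A ω ≠ B ω)
    (hD : ∀ ω ∈ T, ∀ i, D ω i ≠ 0)
    (hr : ∀ ω ∈ T, ∃ j : (Fin (r ω) → ZMod (2 ^ (l + 1))) →+ ShaA (E (A ω) (B ω)) (D ω) ρ,
      Function.Injective j)
    (hs : ∀ s : Finset (Fin l), ∑ ω ∈ T,
      wt ((∏ i ∈ s, D ω i) * A ω) ((∏ i ∈ s, D ω i) * B ω) ^ (e * d) ≤ K) :
    ∑ ω ∈ T, (2 : ℝ) ^ (e * (Module.finrank ℤ (ratA (E (A ω) (B ω)) (D ω) ρ) + r ω)) ≤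
      d * (2 ^ l * K) := by
  calc _ ≤ ∑ ω ∈ T, (d : ℝ) * ∑ s : Finset (Fin l),
        wt ((∏ i ∈ s, D ω i) * A ω) ((∏ i ∈ s, D ω i) * B ω) ^ (e * d) := by
        refine sum_le_sum fun ω hω => ?_
        obtain ⟨j, hj⟩ := hr ω hω
        exact ptDk parts.desc parts.sh1 parts.sh2 hlat hphi hgrp hrk hd _ ρ (hA ω hω) (hB ω hω)
          (hAB ω hω) (hD ω hω) e (r ω) j hj
    _ ≤ (d : ℝ) * ∑ s : Finset (Fin l), K := by
        rw [← mul_sum, sum_comm]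
        exact mul_le_mul_of_nonneg_left (sum_le_sum fun s _ => hs s) (Nat.cast_nonneg _)
    _ = d * (2 ^ l * K) := by
        rw [sum_const, card_univ, Fintype.card_finset, Fintype.card_fin, nsmul_eq_mul]
        push_cast
        rfl

end Pool.Agent.W262.SQ
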