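import Mathlib
import Pool.Agent.W262.SQ.Fam2

/-!
# Project SQ: the moments of the number of the Selmer pairs of the twists
-/

set_option autoImplicit false

namespace Pool.Agent.W262.SQ

open Finset Polynomial Pool.Agent.W262.SH Pool.Agent.W307.QF

theorem SR_co (A B b d : ℤ) (e : ℕ) :
    SR ((b * d) * A) ((b * d) * B) ^ e = SR (co A B b 0 * d) (co A B b 1 * d) ^ e := by
  have e0 : co A B b 0 * d = (b * d) * A := by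
    show b * A * d = b * d * A
    ring
  have e1 : co A B b 1 * d = (b * d) * B := by
    show b * B * d = b * d * B
    ring
  rw [e0, e1]

/-- short intervals -/
theorem rA (e : ℕ) (he : 1 ≤ e) {I T : Type} [Fintype I] [DecidableEq I] [Fintype T] (A B : ℤ)
    (b : I → ℤ) (g : T → I) (P : T → ℤ[X]) (hP : Irr P) (hA : A ≠ 0) (hB : B ≠ 0) (hAB : A ≠ B)
    (hb : ∀ i, b i ≠ 0) (L : ℕ) :
    ∃ C : ℝ, 0 ≤ C ∧ ∀ q : ℤ × ℕ, (1 ≤ q.2 ∧ |q.1| ≤ (q.2 : ℤ) ^ L) → ∀ s : Finset I,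
      ∑ t ∈ (Ioc q.1 (q.1 + q.2)).filter (fun t => ∀ i, Dp b g P t i ≠ 0),
        SR ((∏ i ∈ s, Dp b g P t i) * A) ((∏ i ∈ s, Dp b g P t i) * B) ^ e ≤ C * q.2 := by
  classical
  refine all_s (fun q : ℤ × ℕ => 1 ≤ q.2 ∧ |q.1| ≤ (q.2 : ℤ) ^ L)
    (fun s q => ∑ t ∈ (Ioc q.1 (q.1 + q.2)).filter (fun t => ∀ i, Dp b g P t i ≠ 0),
        SR ((∏ i ∈ s, Dp b g P t i) * A) ((∏ i ∈ s, Dp b g P t i) * B) ^ e)
    (fun q => (q.2 : ℝ)) (fun q _ => Nat.cast_nonneg _) (fun s => ?_)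
  obtain ⟨ε, hdat⟩ := (hP.sub (fun j => g j ∈ s)).dat
  have hbs : ∏ i ∈ s, b i ≠ 0 := prod_ne_zero_iff.2 fun i _ => hb i
  obtain ⟨C, hC⟩ := ava {j : T // g j ∈ s} (fun j => P j) ε (co A B (∏ i ∈ s, b i)) e L hdat
    (co_ne hA hB hAB hbs) (co_sub _ _ _) he
  refine ⟨C, ?_⟩
  rintro ⟨N, M⟩ ⟨hM, hN⟩
  simp only at hM hN ⊢
  refine le_trans ?_ (hC N M hM (natAbs_le hN))
  have hinj : Set.InjOn (fun t : ℕ => N + (t : ℤ)) ((Icc 1 M).filter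
      (fun t : ℕ => ∀ j : {j : T // g j ∈ s}, (P j).eval (N + (t : ℤ)) ≠ 0) : Set ℕ) := by
    intro a _ b _ hab
    have : N + (a : ℤ) = N + (b : ℤ) := hab
    omega
  have h1 := sum_image (f := fun t : ℤ => SR (co A B (∏ i ∈ s, b i) 0 *
    ∏ j : {j : T // g j ∈ s}, (P j).eval t) (co A B (∏ i ∈ s, b i) 1 *
    ∏ j : {j : T // g j ∈ s}, (P j).eval t) ^ e) hinj
  refine le_trans ?_ (le_of_eq h1)
  refine le_trans (sum_le_sum (fun t ht => ?_)) (sum_le_sum_of_subset_of_nonneg ?_ ?_)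
  · have ht2 : ∏ i ∈ s, Dp b g P t i ≠ 0 :=
      prod_ne_zero_iff.2 fun i _ => (mem_filter.1 ht).2 i
    rw [prod_Dp] at ht2 ⊢
    exact le_of_eq (SR_co A B _ _ e)
  · intro t ht
    rw [mem_filter, mem_Ioc] at ht
    obtain ⟨⟨ht1, ht2⟩, ht3⟩ := ht
    rw [mem_image]
    have h5 : N + (((t - N).toNat : ℕ) : ℤ) = t := by omega
    refine ⟨(t - N).toNat, ?_, h5⟩
    rw [mem_filter, mem_Icc]
    refine ⟨by omega, fun j => ?_⟩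
    rw [h5]
    have h6 := ht3 (g j)
    unfold Dp at h6
    exact prod_ne_zero_iff.1 (right_ne_zero_of_mul h6) j (mem_filter.2 ⟨mem_univ _, rfl⟩)
  · intro t _ _
    exact pow_nonneg (SR_nonneg _ _) _

/-- the primes of short intervals -/
theorem rB (e : ℕ) (he : 1 ≤ e) {I T : Type} [Fintype I] [DecidableEq I] [Fintype T] (A B : ℤ)
    (b : I → ℤ) (g : T → I) (P : T → ℤ[X]) (hP : Irr P) (hP0 : ∀ j, (P j).eval 0 ≠ 0)
    (hA : A ≠ 0) (hB : B ≠ 0) (hAB : A ≠ B) (hb : ∀ i, b i ≠ 0) (L : ℕ) :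
    ∃ C : ℝ, 0 ≤ C ∧ ∀ q : ℕ × ℕ, (2 ≤ q.2 ∧ q.1 ≤ q.2 ^ L) → ∀ s : Finset I,
      ∑ p ∈ (Ioc q.1 (q.1 + q.2)).filter
        (fun p : ℕ => p.Prime ∧ ∀ i, Dp b g P (p : ℤ) i ≠ 0),
        SR ((∏ i ∈ s, Dp b g P (p : ℤ) i) * A) ((∏ i ∈ s, Dp b g P (p : ℤ) i) * B) ^ e ≤
          C * (q.2 / Real.log q.2) := by
  classical
  refine all_s (fun q : ℕ × ℕ => 2 ≤ q.2 ∧ q.1 ≤ q.2 ^ L)
    (fun s q => ∑ p ∈ (Ioc q.1 (q.1 + q.2)).filter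
        (fun p : ℕ => p.Prime ∧ ∀ i, Dp b g P (p : ℤ) i ≠ 0),
        SR ((∏ i ∈ s, Dp b g P (p : ℤ) i) * A) ((∏ i ∈ s, Dp b g P (p : ℤ) i) * B) ^ e)
    (fun q => (q.2 / Real.log q.2 : ℝ))
    (fun q _ => div_nonneg (Nat.cast_nonneg _) (Real.log_natCast_nonneg _)) (fun s => ?_)
  obtain ⟨ε, hdat⟩ := (hP.sub (fun j => g j ∈ s)).dat
  have hbs : ∏ i ∈ s, b i ≠ 0 := prod_ne_zero_iff.2 fun i _ => hb i
  obtain ⟨C, hC⟩ := avb {j : T // g j ∈ s} (fun j => P j) ε (co A B (∏ i ∈ s, b i)) e L hdat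
    (fun j => hP0 j) (co_ne hA hB hAB hbs) (co_sub _ _ _) he
  refine ⟨C, ?_⟩
  rintro ⟨N, M⟩ ⟨hM, hN⟩
  simp only at hM hN ⊢
  refine le_trans ?_ (hC (N : ℤ) M hM (by simpa using hN))
  have hinj : Set.InjOn (fun t : ℕ => N + t) ((Icc 1 M).filter
      (fun t : ℕ => ((N : ℤ) + (t : ℤ)).toNat.Prime ∧ ∀ j : {j : T // g j ∈ s},
        (P j).eval ((N : ℤ) + (t : ℤ)) ≠ 0) : Set ℕ) := by
    intro a _ b _ hab
    have : N + a = N + b := hab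
    omega
  have h1 := sum_image (f := fun t : ℕ => SR (co A B (∏ i ∈ s, b i) 0 *
    ∏ j : {j : T // g j ∈ s}, (P j).eval (t : ℤ)) (co A B (∏ i ∈ s, b i) 1 *
    ∏ j : {j : T // g j ∈ s}, (P j).eval (t : ℤ)) ^ e) hinj
  simp only [Nat.cast_add] at h1
  refine le_trans ?_ (le_of_eq h1)
  refine le_trans (sum_le_sum (fun t ht => ?_)) (sum_le_sum_of_subset_of_nonneg ?_ ?_)
  · have ht2 : ∏ i ∈ s, Dp b g P (t : ℤ) i ≠ 0 :=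
      prod_ne_zero_iff.2 fun i _ => (mem_filter.1 ht).2.2 i
    rw [prod_Dp] at ht2 ⊢
    exact le_of_eq (SR_co A B _ _ e)
  · intro t ht
    rw [mem_filter, mem_Ioc] at ht
    obtain ⟨⟨ht1, ht2⟩, htp, ht3⟩ := ht
    rw [mem_image]
    have h5 : N + (t - N) = t := by omega
    have h6 : (N : ℤ) + ((t - N : ℕ) : ℤ) = t := by omega
    refine ⟨t - N, ?_, h5⟩
    rw [mem_filter, mem_Icc]
    refine ⟨by omega, ?_, fun j => ?_⟩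
    · rw [h6, Int.toNat_natCast]
      exact htp
    · rw [h6]
      have h7 := ht3 (g j)
      unfold Dp at h7
      exact prod_ne_zero_iff.1 (right_ne_zero_of_mul h7) j (mem_filter.2 ⟨mem_univ _, rfl⟩)
  · intro t _ _
    exact pow_nonneg (SR_nonneg _ _) _

/-- coprime pairs of short squares -/
theorem rC (e : ℕ) (he : 1 ≤ e) {I T1 T2 : Type} [Fintype I] [DecidableEq I] [Fintype T1]
    [Fintype T2] (A B : ℤ) (b : I → ℤ) (g1 : T1 → I) (g2 : T2 → I) (α β : T1 → ℤ)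
    (qa qb qc : T2 → ℤ) (hD : DatC α β qa qb qc) (hA : A ≠ 0) (hB : B ≠ 0) (hAB : A ≠ B)
    (hb : ∀ i, b i ≠ 0) (L : ℕ) :
    ∃ C : ℝ, 0 ≤ C ∧ ∀ q : ℤ × ℤ × ℕ,
      (1 ≤ q.2.2 ∧ |q.1| ≤ (q.2.2 : ℤ) ^ L ∧ |q.2.1| ≤ (q.2.2 : ℤ) ^ L) → ∀ s : Finset I,
      ∑ t ∈ (Ioc q.1 (q.1 + q.2.2) ×ˢ Ioc q.2.1 (q.2.1 + q.2.2)).filter
        (fun t : ℤ × ℤ => IsCoprime t.1 t.2 ∧ ∀ i, Db b g1 g2 α β qa qb qc t i ≠ 0),
        SR ((∏ i ∈ s, Db b g1 g2 α β qa qb qc t i) * A)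
          ((∏ i ∈ s, Db b g1 g2 α β qa qb qc t i) * B) ^ e ≤ C * (q.2.2 : ℝ) ^ 2 := by
  classical
  refine all_s (fun q : ℤ × ℤ × ℕ =>
      1 ≤ q.2.2 ∧ |q.1| ≤ (q.2.2 : ℤ) ^ L ∧ |q.2.1| ≤ (q.2.2 : ℤ) ^ L)
    (fun s q => ∑ t ∈ (Ioc q.1 (q.1 + q.2.2) ×ˢ Ioc q.2.1 (q.2.1 + q.2.2)).filter
        (fun t : ℤ × ℤ => IsCoprime t.1 t.2 ∧ ∀ i, Db b g1 g2 α β qa qb qc t i ≠ 0),
        SR ((∏ i ∈ s, Db b g1 g2 α β qa qb qc t i) * A)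
          ((∏ i ∈ s, Db b g1 g2 α β qa qb qc t i) * B) ^ e)
    (fun q => (q.2.2 : ℝ) ^ 2) (fun q _ => by positivity) (fun s => ?_)
  have hbs : ∏ i ∈ s, b i ≠ 0 := prod_ne_zero_iff.2 fun i _ => hb i
  have hD' : DatC (fun j : {j : T1 // g1 j ∈ s} => α j) (fun j => β j)
      (fun j : {j : T2 // g2 j ∈ s} => qa j) (fun j => qb j) (fun j => qc j) :=
    ⟨fun i j hij => hD.lin i j (fun h => hij (Subtype.ext h)), fun i => hD.nz0 i,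
      fun j => hD.irr j, fun i j hij => hD.quad i j (fun h => hij (Subtype.ext h))⟩
  obtain ⟨C, hC⟩ := avd {j : T1 // g1 j ∈ s} {j : T2 // g2 j ∈ s} (fun j => α j) (fun j => β j)
    (fun j => qa j) (fun j => qb j) (fun j => qc j) (co A B (∏ i ∈ s, b i)) e L hD'
    (co_ne hA hB hAB hbs) (co_sub _ _ _) he
  refine ⟨C, ?_⟩
  rintro ⟨U, V, X⟩ ⟨hX, hU, hV⟩
  simp only at hX hU hV ⊢
  refine le_trans ?_ (hC U V X hX (natAbs_le hU) (natAbs_le hV))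
  set F : ℤ × ℤ → ℝ := fun t => SR (co A B (∏ i ∈ s, b i) 0 *
      ∏ j : {j : T1 // g1 j ∈ s} ⊕ {j : T2 // g2 j ∈ s},
        fb (fun j : {j : T1 // g1 j ∈ s} => α j) (fun j => β j)
          (fun j : {j : T2 // g2 j ∈ s} => qa j) (fun j => qb j) (fun j => qc j) t.1 t.2 j)
    (co A B (∏ i ∈ s, b i) 1 *
      ∏ j : {j : T1 // g1 j ∈ s} ⊕ {j : T2 // g2 j ∈ s},
        fb (fun j : {j : T1 // g1 j ∈ s} => α j) (fun j => β j)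
          (fun j : {j : T2 // g2 j ∈ s} => qa j) (fun j => qb j) (fun j => qc j) t.1 t.2 j) ^ e
    with hF
  refine le_trans (sum_le_sum (g := F) (fun t ht => ?_)) (sum_le_sum_of_subset_of_nonneg ?_ ?_)
  · have ht2 : ∏ i ∈ s, Db b g1 g2 α β qa qb qc t i ≠ 0 :=
      prod_ne_zero_iff.2 fun i _ => (mem_filter.1 ht).2.2 i
    rw [prod_Db] at ht2 ⊢
    exact le_of_eq (SR_co A B _ _ e)
  · intro t ht
    rw [mem_filter] at ht ⊢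
    refine ⟨ht.1, ht.2.1, ?_⟩
    have ht2 : ∏ i ∈ s, Db b g1 g2 α β qa qb qc t i ≠ 0 :=
      prod_ne_zero_iff.2 fun i _ => ht.2.2 i
    rw [prod_Db] at ht2
    exact right_ne_zero_of_mul ht2
  · intro t _ _
    exact pow_nonneg (SR_nonneg _ _) _

end Pool.Agent.W262.SQ
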