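import Mathlib
import Pool.Agent.W262.SQ.Fam2
import Pool.Agent.W262.SH.DefC
import Pool.Agent.W509.SH.Lat
import Pool.Agent.W509.SH.Phia2
import Pool.Agent.W338.SH.Sh2
import Pool.Agent.W352.SH.Grp
import Pool.Agent.W756.SH.Twi

/-!
# Project SQ: the 2-power Selmer groups of twisted powers

(the homomorphism to the Selmer groups of the quadratic twists is adapted from helper509)
-/

set_option autoImplicit false

namespace Pool.Agent.W262.SQ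

open WeierstrassCurve Pool.Agent.W262.SH Pool.Agent.W509.SH Pool.Agent.W338.SH
open Pool.Agent.W381.SH (chS chS_spec sqS IsTw act_tw thH)
open scoped Classical

section tors

variable {M M' : Type} [AddCommGroup M] [AddCommGroup M']

/-- elements of 2-power order -/
def IsT (P : M) : Prop := ∃ k : ℕ, (2 ^ k) • P = 0

theorem isT_zero : IsT (0 : M) := ⟨0, smul_zero _⟩

theorem isT_add {P Q : M} (hP : IsT P) (hQ : IsT Q) : IsT (P + Q) := by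
  obtain ⟨k, hk⟩ := hP
  obtain ⟨l, hl⟩ := hQ
  refine ⟨k + l, ?_⟩
  rw [smul_add, pow_add, mul_smul (2 ^ k) (2 ^ l) Q, hl, smul_zero, add_zero, mul_comm, mul_smul,
    hk, smul_zero]

theorem isT_neg {P : M} (hP : IsT P) : IsT (-P) := by
  obtain ⟨k, hk⟩ := hP
  exact ⟨k, by rw [smul_neg, hk, neg_zero]⟩

theorem isT_sub {P Q : M} (hP : IsT P) (hQ : IsT Q) : IsT (P - Q) := by
  rw [sub_eq_add_neg]
  exact isT_add hP (isT_neg hQ)

theorem isT_map (f : M →+ M') {P : M} (hP : IsT P) : IsT (f P) := by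
  obtain ⟨k, hk⟩ := hP
  exact ⟨k, by rw [← map_nsmul, hk, map_zero]⟩

theorem isT_zsmul (z : ℤ) {P : M} (hP : IsT P) : IsT (z • P) := by
  obtain ⟨k, hk⟩ := hP
  exact ⟨k, by rw [smul_comm, hk, smul_zero]⟩

theorem isT_sum {I : Type} (s : Finset I) (f : I → M) (h : ∀ i ∈ s, IsT (f i)) :
    IsT (∑ i ∈ s, f i) := by
  induction s using Finset.induction_on with
  | empty => rw [Finset.sum_empty]; exact isT_zero
  | insert i s hi ih =>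
    rw [Finset.sum_insert hi]
    exact isT_add (h i (Finset.mem_insert_self _ _))
      (ih fun j hj => h j (Finset.mem_insert_of_mem hj))

theorem isT_apply {I : Type} {P : I → M} (h : IsT P) (i : I) : IsT (P i) := by
  obtain ⟨k, hk⟩ := h
  exact ⟨k, congrFun hk i⟩

theorem isT_pi {I : Type} [Fintype I] {P : I → M} (h : ∀ i, IsT (P i)) : IsT P := by
  choose k hk using h
  refine ⟨∑ i, k i, funext fun i => ?_⟩
  have h1 : k i ≤ ∑ i, k i := Finset.single_le_sum (f := k) (fun _ _ => Nat.zero_le _)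
    (Finset.mem_univ i)
  show (2 ^ (∑ i, k i)) • P i = 0
  rw [← Nat.sub_add_cancel h1, pow_add, mul_smul, hk, smul_zero]

theorem isT_ract {a b : ℕ} (N : Matrix (Fin a) (Fin b) ℤ) {P : Fin b → M} (h : ∀ j, IsT (P j)) :
    IsT (ract N P) :=
  isT_pi fun _ => isT_sum _ _ fun j _ => isT_zsmul _ (h j)

end tors

/-! ### the Selmer groups -/

theorem isT_act {W : WeierstrassCurve ℚ} (σ : QB ≃ₐ[ℚ] QB) {P : Pt W QB} (hP : IsT P) :
    IsT (act W σ.toAlgHom P) := isT_map _ hP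

/-- the locally trivial cocycles over `ℚ` with values of 2-power order -/
noncomputable def zQ (W : WeierstrassCurve ℚ) : AddSubgroup ((QB ≃ₐ[ℚ] QB) → Pt W QB) where
  carrier := {f | f ∈ shaCoc W ∧ ∀ σ, IsT (f σ)}
  zero_mem' := ⟨(shaCoc W).zero_mem, fun _ => isT_zero⟩
  add_mem' := fun {f g} hf hg =>
    ⟨(shaCoc W).add_mem hf.1 hg.1, fun σ => isT_add (hf.2 σ) (hg.2 σ)⟩
  neg_mem' := fun {f} hf => ⟨(shaCoc W).neg_mem hf.1, fun σ => isT_neg (hf.2 σ)⟩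

/-- the coboundaries of the points of 2-power order -/
noncomputable def bQ (W : WeierstrassCurve ℚ) : AddSubgroup ((QB ≃ₐ[ℚ] QB) → Pt W QB) where
  carrier := {f | ∃ P, IsT P ∧ ∀ σ, f σ = act W σ.toAlgHom P - P}
  zero_mem' := ⟨0, isT_zero, fun σ => by simp⟩
  add_mem' := by
    rintro f g ⟨P, hP0, hP⟩ ⟨Q, hQ0, hQ⟩
    refine ⟨P + Q, isT_add hP0 hQ0, fun σ => ?_⟩
    simp only [Pi.add_apply, map_add, hP, hQ]
    abel
  neg_mem' := by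
    rintro f ⟨P, hP0, hP⟩
    refine ⟨-P, isT_neg hP0, fun σ => ?_⟩
    simp only [Pi.neg_apply, map_neg, hP]
    abel

/-- the 2-power Selmer group over `ℚ` -/
abbrev SelQ (W : WeierstrassCurve ℚ) : Type := zQ W ⧸ (bQ W).addSubgroupOf (zQ W)

/-- the locally trivial cocycles with values in `A[2^∞]` -/
noncomputable def zT {n g : ℕ} (W : WeierstrassCurve ℚ) (D : Fin n → ℤ)
    (ρ : (Fin n → ℤˣ) →* (Matrix (Fin g) (Fin g) ℤ)ˣ) :
    AddSubgroup ((QB ≃ₐ[ℚ] QB) → Fin g → Pt W QB) where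
  carrier := {f | f ∈ shaCocA W D ρ ∧ ∀ σ, IsT (f σ)}
  zero_mem' := ⟨(shaCocA W D ρ).zero_mem, fun _ => isT_zero⟩
  add_mem' := fun {f g} hf hg =>
    ⟨(shaCocA W D ρ).add_mem hf.1 hg.1, fun σ => isT_add (hf.2 σ) (hg.2 σ)⟩
  neg_mem' := fun {f} hf => ⟨(shaCocA W D ρ).neg_mem hf.1, fun σ => isT_neg (hf.2 σ)⟩

/-- the coboundaries of the elements of `A[2^∞]` -/
noncomputable def bT {n g : ℕ} (W : WeierstrassCurve ℚ) (D : Fin n → ℤ)
    (ρ : (Fin n → ℤˣ) →* (Matrix (Fin g) (Fin g) ℤ)ˣ) :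
    AddSubgroup ((QB ≃ₐ[ℚ] QB) → Fin g → Pt W QB) where
  carrier := {f | ∃ P, IsT P ∧ ∀ σ, f σ = tact W D ρ σ.toAlgHom P - P}
  zero_mem' := ⟨0, isT_zero, fun σ => by rw [tact_zero]; exact (sub_self _).symm⟩
  add_mem' := by
    rintro f g ⟨P, hP0, hP⟩ ⟨Q, hQ0, hQ⟩
    refine ⟨P + Q, isT_add hP0 hQ0, fun σ => ?_⟩
    rw [tact_add, Pi.add_apply, hP, hQ]
    abel
  neg_mem' := by
    rintro f ⟨P, hP0, hP⟩
    refine ⟨-P, isT_neg hP0, fun σ => ?_⟩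
    rw [tact_neg, Pi.neg_apply, hP]
    abel

/-- the 2-power Selmer group of the abelian variety -/
abbrev SelA {n g : ℕ} (W : WeierstrassCurve ℚ) (D : Fin n → ℤ)
    (ρ : (Fin n → ℤˣ) →* (Matrix (Fin g) (Fin g) ℤ)ˣ) : Type :=
  zT W D ρ ⧸ (bT W D ρ).addSubgroupOf (zT W D ρ)

section main

variable {n g m : ℕ} {D : Fin n → ℤ} {A B : ℤ}
  (ρ : (Fin n → ℤˣ) →* (Matrix (Fin g) (Fin g) ℤ)ˣ)

/-- the homomorphism on the cocycles -/
noncomputable def psiT (hD : ∀ i, D i ≠ 0) {S : Finset (Fin n)}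
    {θ : ∀ (L : Type) [Field L] [Algebra ℚ L], L → Pt (E A B) L →
      Pt (E ((∏ j ∈ S, D j) * A) ((∏ j ∈ S, D j) * B)) L}
    (hθ : IsTw A B (∏ j ∈ S, D j) θ) {C : Matrix (Fin m) (Fin g) ℤ}
    (hC : ∀ ε, C * (ρ ε : Matrix (Fin g) (Fin g) ℤ) = (∏ i ∈ S, ((ε i : ℤˣ) : ℤ)) • C)
    (s : Fin n → QB) (hs : ∀ i, s i ^ 2 = (D i : QB))
    (i : Fin m) : zT (E A B) D ρ →+
      zQ (E ((∏ j ∈ S, D j) * A) ((∏ j ∈ S, D j) * B)) where
  toFun F := ⟨fun σ => TT hθ C s hs i (F.1 σ),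
    (psi hD ρ hθ hC s hs i ⟨F.1, F.2.1⟩).2, fun σ => isT_map _ (F.2.2 σ)⟩
  map_zero' := by
    apply Subtype.ext
    funext σ
    exact map_zero (TT hθ C s hs i)
  map_add' F F' := by
    apply Subtype.ext
    funext σ
    exact map_add (TT hθ C s hs i) (F.1 σ) (F'.1 σ)

theorem psiT_cob (hD : ∀ i, D i ≠ 0) {S : Finset (Fin n)}
    {θ : ∀ (L : Type) [Field L] [Algebra ℚ L], L → Pt (E A B) L →
      Pt (E ((∏ j ∈ S, D j) * A) ((∏ j ∈ S, D j) * B)) L}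
    (hθ : IsTw A B (∏ j ∈ S, D j) θ) {C : Matrix (Fin m) (Fin g) ℤ}
    (hC : ∀ ε, C * (ρ ε : Matrix (Fin g) (Fin g) ℤ) = (∏ i ∈ S, ((ε i : ℤˣ) : ℤ)) • C)
    (s : Fin n → QB) (hs : ∀ i, s i ^ 2 = (D i : QB))
    (i : Fin m) :
    (bT (E A B) D ρ).addSubgroupOf (zT (E A B) D ρ) ≤
      ((bQ (E ((∏ j ∈ S, D j) * A) ((∏ j ∈ S, D j) * B))).addSubgroupOf
        (zQ (E ((∏ j ∈ S, D j) * A) ((∏ j ∈ S, D j) * B)))).comap
          (psiT ρ hD hθ hC s hs i) := by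
  intro F hF
  rw [AddSubgroup.mem_addSubgroupOf] at hF
  rw [AddSubgroup.mem_comap, AddSubgroup.mem_addSubgroupOf]
  obtain ⟨P, hP0, hP⟩ := hF
  refine ⟨TT hθ C s hs i P, isT_map _ hP0, fun σ => ?_⟩
  show TT hθ C s hs i (F.1 σ) = _
  rw [hP σ, map_sub, TT_tact hD ρ hθ hC]

/-- one component of the homomorphism -/
theorem oneT (hT : TWI) (hD : ∀ i, D i ≠ 0) (hA : A ≠ 0) (hB : B ≠ 0) (hAB : A ≠ B)
    (s : Fin n → QB) (hs : ∀ i, s i ^ 2 = (D i : QB)) (S : Finset (Fin n))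
    {C : Matrix (Fin m) (Fin g) ℤ}
    (hC : ∀ ε, C * (ρ ε : Matrix (Fin g) (Fin g) ℤ) = (∏ i ∈ S, ((ε i : ℤˣ) : ℤ)) • C)
    (i : Fin m) :
    ∃ φ : SelA (E A B) D ρ →+ SelQ (E ((∏ j ∈ S, D j) * A) ((∏ j ∈ S, D j) * B)),
      ∀ F : zT (E A B) D ρ, φ (QuotientAddGroup.mk F) = 0 →
        ∃ P : Pt (E A B) QB, IsT P ∧ ∀ σ : QB ≃ₐ[ℚ] QB, ract C (F.1 σ) i =
          ((chS S (chi D σ.toAlgHom) : ℤˣ) : ℤ) • act (E A B) σ.toAlgHom P - P := by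
  have hd : (∏ j ∈ S, D j) ≠ 0 := Finset.prod_ne_zero_iff.mpr fun j _ => hD j
  obtain ⟨θ, hθ'⟩ := hT A B (∏ j ∈ S, D j) hA hB hAB hd
  have hθ : IsTw A B (∏ j ∈ S, D j) θ := hθ'
  refine ⟨QuotientAddGroup.map _ _ (psiT ρ hD hθ hC s hs i) (psiT_cob ρ hD hθ hC s hs i), ?_⟩
  intro F hF
  rw [QuotientAddGroup.map_mk, QuotientAddGroup.eq_zero_iff, AddSubgroup.mem_addSubgroupOf] at hF
  obtain ⟨R, hR0, hR⟩ := hF
  obtain ⟨h1, h2, h3, h4⟩ := hθ QB (∏ i ∈ S, s i) (sqS D s hs S)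
  obtain ⟨P, rfl⟩ := h2.2 R
  refine ⟨P, ?_, fun σ => h2.1 ?_⟩
  · obtain ⟨k, hk⟩ := hR0
    refine ⟨k, h2.1 ?_⟩
    have e1 := map_nsmul (thH hθ (∏ i ∈ S, s i) (sqS D s hs S)) (2 ^ k) P
    have e2 := map_zero (thH hθ (∏ i ∈ S, s i) (sqS D s hs S))
    exact (e1.trans hk).trans e2.symm
  have h5 : TT hθ C s hs i (F.1 σ) =
    act (E ((∏ j ∈ S, D j) * A) ((∏ j ∈ S, D j) * B)) σ.toAlgHom (θ QB (∏ i ∈ S, s i) P) -
      θ QB (∏ i ∈ S, s i) P := hR σ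
  rw [TT_apply, act_tw hD hθ s hs] at h5
  rw [h5]
  exact (map_sub (thH hθ (∏ i ∈ S, s i) (sqS D s hs S)) _ _).symm

end main

/-- the Selmer group of `A` and the Selmer groups of the quadratic twists of `E` -/
theorem phiT (hT : TWI) : ∀ (n g : ℕ) (D : Fin n → ℤ)
    (ρ : (Fin n → ℤˣ) →* (Matrix (Fin g) (Fin g) ℤ)ˣ) (m : Finset (Fin n) → ℕ)
    (B : ∀ S, Matrix (Fin g) (Fin (m S)) ℤ) (C : ∀ S, Matrix (Fin (m S)) (Fin g) ℤ),
    LatD ρ m B C → ∀ (A₀ B₀ : ℤ), A₀ ≠ 0 → B₀ ≠ 0 → A₀ ≠ B₀ → (∀ i, D i ≠ 0) →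
    ∃ Φ : SelA (E A₀ B₀) D ρ →+
      (∀ i : (S : Finset (Fin n)) × Fin (m S),
        SelQ (E ((∏ j ∈ i.1, D j) * A₀) ((∏ j ∈ i.1, D j) * B₀))),
    ∀ c, Φ c = 0 → (2 ^ n) • c = 0 := by
  intro n g D ρ m B' C hL A B hA hB hAB hD
  obtain ⟨-, hB', hC, hBC⟩ := hL
  have hex : ∀ i : Fin n, ∃ r : QB, r ^ 2 = (D i : QB) := fun i =>
    IsAlgClosed.exists_pow_nat_eq _ (by norm_num)
  choose s hs using hex
  choose φ hφ using fun (x : (S : Finset (Fin n)) × Fin (m S)) =>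
    oneT (A := A) (B := B) ρ hT hD hA hB hAB s hs x.1 (hC x.1) x.2
  refine ⟨AddMonoidHom.pi φ, ?_⟩
  intro c hc
  obtain ⟨F, rfl⟩ := QuotientAddGroup.mk_surjective c
  have hc' : ∀ x : (S : Finset (Fin n)) × Fin (m S), φ x (QuotientAddGroup.mk F) = 0 := fun x =>
    congrFun hc x
  choose P hP0 hP using fun x => hφ x F (hc' x)
  have hPS : ∀ (S : Finset (Fin n)) (σ : QB ≃ₐ[ℚ] QB), ract (C S) (F.1 σ) =
      ((chS S (chi D σ.toAlgHom) : ℤˣ) : ℤ) •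
        (fun i => act (E A B) σ.toAlgHom (P ⟨S, i⟩)) - fun i => P ⟨S, i⟩ := by
    intro S σ
    funext i
    rw [hP ⟨S, i⟩ σ]
    rfl
  have h1 : ∀ (S : Finset (Fin n)) (σ : QB ≃ₐ[ℚ] QB), ract (B' S * C S) (F.1 σ) =
      tact (E A B) D ρ σ.toAlgHom (ract (B' S) fun i => P ⟨S, i⟩) -
        ract (B' S) fun i => P ⟨S, i⟩ := by
    intro S σ
    rw [ract_mul, hPS S σ, ract_sub, ract_zsmul, tact_B ρ (hB' S)]
  have hsum : ∀ (σ : QB ≃ₐ[ℚ] QB) (t : Finset (Finset (Fin n))),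
      tact (E A B) D ρ σ.toAlgHom (∑ S ∈ t, ract (B' S) fun i => P ⟨S, i⟩) =
        ∑ S ∈ t, tact (E A B) D ρ σ.toAlgHom (ract (B' S) fun i => P ⟨S, i⟩) := by
    intro σ t
    induction t using Finset.induction_on with
    | empty => rw [Finset.sum_empty, Finset.sum_empty, tact_zero]
    | insert S t hS ih => rw [Finset.sum_insert hS, Finset.sum_insert hS, tact_add, ih]
  have h3 : ∀ σ : QB ≃ₐ[ℚ] QB, (2 ^ n) • F.1 σ =
      tact (E A B) D ρ σ.toAlgHom (∑ S, ract (B' S) fun i => P ⟨S, i⟩) -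
        ∑ S, ract (B' S) fun i => P ⟨S, i⟩ := by
    intro σ
    rw [hsum, ← Finset.sum_sub_distrib, ← Finset.sum_congr rfl fun S _ => h1 S σ, ← ract_sum,
      hBC, ract_smul, ract_one, ← natCast_zsmul]
    push_cast
    rfl
  have h4 : (2 ^ n) • (QuotientAddGroup.mk F : SelA (E A B) D ρ) =
      QuotientAddGroup.mk ((2 ^ n) • F) := rfl
  rw [h4, QuotientAddGroup.eq_zero_iff, AddSubgroup.mem_addSubgroupOf]
  exact ⟨_, isT_sum _ _ fun S _ => isT_ract _ fun i => hP0 ⟨S, i⟩, h3⟩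

/-- a class of order two is the class of a Selmer homomorphism -/
theorem sel_two (hD : DIV) {A B : ℤ} (hA : A ≠ 0) (hB : B ≠ 0) (hAB : A ≠ B)
    (c : SelQ (E A B)) (hc : c + c = 0) :
    ∃ f : zQ (E A B), (QuotientAddGroup.mk f : SelQ (E A B)) = c ∧
      IsSel A B (f : (QB ≃ₐ[ℚ] QB) → Pt (E A B) QB) := by
  obtain ⟨f, rfl⟩ := QuotientAddGroup.mk_surjective c
  have h1 : f + f ∈ (bQ (E A B)).addSubgroupOf (zQ (E A B)) := by
    rw [← QuotientAddGroup.eq_zero_iff]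
    exact hc
  obtain ⟨P, hP0, hP⟩ := AddSubgroup.mem_addSubgroupOf.1 h1
  obtain ⟨Q, rfl⟩ := div2 hD A B hA hB hAB P
  have hQ0 : IsT Q := by
    obtain ⟨k, hk⟩ := hP0
    refine ⟨k + 1, ?_⟩
    rw [pow_succ, mul_smul, two_smul]
    exact hk
  have hd : del (E A B) Q ∈ zQ (E A B) :=
    ⟨⟨⟨del_locconst _ Q, del_coc _ Q⟩, fun p _ => del_LocTriv _ Q _, del_LocTriv _ Q _⟩,
      fun σ => isT_sub (isT_act σ hQ0) hQ0⟩
  let f' : zQ (E A B) := f - ⟨_, hd⟩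
  have hf' : ∀ σ, (f' : (QB ≃ₐ[ℚ] QB) → Pt (E A B) QB) σ =
    (f : (QB ≃ₐ[ℚ] QB) → Pt (E A B) QB) σ - (act (E A B) σ.toAlgHom Q - Q) := fun σ => rfl
  have h2 : ∀ σ, (f' : (QB ≃ₐ[ℚ] QB) → Pt (E A B) QB) σ +
      (f' : (QB ≃ₐ[ℚ] QB) → Pt (E A B) QB) σ = 0 := by
    intro σ
    have h3 : (f : (QB ≃ₐ[ℚ] QB) → Pt (E A B) QB) σ + (f : (QB ≃ₐ[ℚ] QB) → Pt (E A B) QB) σ =
      act (E A B) σ.toAlgHom (Q + Q) - (Q + Q) := hP σ
    rw [map_add] at h3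
    rw [hf']
    calc (f : (QB ≃ₐ[ℚ] QB) → Pt (E A B) QB) σ - (act (E A B) σ.toAlgHom Q - Q) +
        ((f : (QB ≃ₐ[ℚ] QB) → Pt (E A B) QB) σ - (act (E A B) σ.toAlgHom Q - Q))
        = ((f : (QB ≃ₐ[ℚ] QB) → Pt (E A B) QB) σ + (f : (QB ≃ₐ[ℚ] QB) → Pt (E A B) QB) σ) -
          (act (E A B) σ.toAlgHom Q + act (E A B) σ.toAlgHom Q - (Q + Q)) := by abel
      _ = 0 := by rw [h3, sub_self]
  refine ⟨f', ?_, f'.2.1.1.1, h2, fun σ τ => ?_, fun p _ _ => f'.2.1.2.1 p⟩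
  · rw [QuotientAddGroup.eq]
    refine AddSubgroup.mem_addSubgroupOf.2 ⟨Q, hQ0, fun σ => ?_⟩
    show -((f' : (QB ≃ₐ[ℚ] QB) → Pt (E A B) QB) σ) + (f : (QB ≃ₐ[ℚ] QB) → Pt (E A B) QB) σ = _
    rw [hf']
    abel
  · rw [f'.2.1.1.2 σ τ, tors_fix (h2 τ)]

/-- the elements of order two of the Selmer group over `ℚ` -/
theorem card_selQ (hD : DIV) {A B : ℤ} (hA : A ≠ 0) (hB : B ≠ 0) (hAB : A ≠ B)
    (hfin : {h | IsSel A B h}.Finite) :
    Finite {c : SelQ (E A B) // c + c = 0} ∧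
      Nat.card {c : SelQ (E A B) // c + c = 0} ≤ {h | IsSel A B h}.ncard := by
  choose f hf1 hf2 using fun c : {c : SelQ (E A B) // c + c = 0} =>
    sel_two hD hA hB hAB c.1 c.2
  have hX : Finite {h | IsSel A B h} := hfin
  let F : {c : SelQ (E A B) // c + c = 0} → {h | IsSel A B h} := fun c => ⟨(f c).1, hf2 c⟩
  have hF : Function.Injective F := by
    intro c c' h
    apply Subtype.ext
    rw [← hf1 c, ← hf1 c']
    have h1 : (f c).1 = (f c').1 := congrArg (fun x : {h | IsSel A B h} => x.1) h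
    rw [Subtype.ext h1]
  refine ⟨Finite.of_injective F hF, ?_⟩
  rw [← Nat.card_coe_set_eq]
  exact Nat.card_le_card_of_injective F hF

theorem selQ_le {A B : ℤ} (hA : A ≠ 0) (hB : B ≠ 0) (hAB : A ≠ B) :
    Finite {c : SelQ (E A B) // c + c = 0} ∧
      (Nat.card {c : SelQ (E A B) // c + c = 0} : ℝ) ≤ SR A B := by
  obtain ⟨h1, h2⟩ := parts.sh1 A B hA hB hAB (selS_finite parts.desc hA hB hAB)
  obtain ⟨h3, h4⟩ := card_selQ Pool.Agent.W177.SH.div hA hB hAB h1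
  refine ⟨h3, ?_⟩
  unfold SR
  exact_mod_cast h4.trans h2

end Pool.Agent.W262.SQ
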