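import Mathlib
import Pool.Agent.W262.SQ.Sel
import Pool.Agent.W262.SQ.Fam3

/-!
# Project SQ: the moments of the coranks of the 2-power Selmer groups of twisted powers
-/

set_option autoImplicit false

namespace Pool.Agent.W262.SQ

open Finset Pool.Agent.W262.SH

/-- the pointwise bound -/
theorem ptT (hlat : LAT) (hT : TWI) (hgrp : GRP) {l g : ℕ} (hg : 0 < g) (D : Fin l → ℤ)
    (ρ : (Fin l → ℤˣ) →* (Matrix (Fin g) (Fin g) ℤ)ˣ)
    {A B : ℤ} (hA : A ≠ 0) (hB : B ≠ 0) (hAB : A ≠ B)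
    (hD : ∀ i, D i ≠ 0) (e r : ℕ)
    (j : (Fin r → ZMod (2 ^ (l + 1))) →+ SelA (E A B) D ρ) (hj : Function.Injective j) :
    (2 : ℝ) ^ (e * r) ≤
      g * ∑ S : Finset (Fin l), SR ((∏ i ∈ S, D i) * A) ((∏ i ∈ S, D i) * B) ^ (e * g) := by
  classical
  obtain ⟨m, M, N, hd⟩ := hlat l g ρ
  have hsum := hd.1
  have hS0 : ∀ S : Finset (Fin l), (∏ i ∈ S, D i) ≠ 0 := fun S =>
    prod_ne_zero_iff.2 fun i _ => hD i
  obtain ⟨Φ, hΦ⟩ := phiT hT l g D ρ m M N hd A B hA hB hAB hD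
  have hle := fun S : Finset (Fin l) => selQ_le (mul_ne_zero (hS0 S) hA) (mul_ne_zero (hS0 S) hB)
      (fun h => hAB (mul_left_cancel₀ (hS0 S) h))
  obtain ⟨hf, hc⟩ := card_two (fun S : (S : Finset (Fin l)) × Fin (m S) =>
    SelQ (E ((∏ i ∈ S.1, D i) * A) ((∏ i ∈ S.1, D i) * B))) (fun S => (hle S.1).1)
  have h3 := hgrp l r _ _ Φ hΦ j hj hf
  rw [hc] at h3
  have hcard : Fintype.card ((S : Finset (Fin l)) × Fin (m S)) = g := by
    rw [Fintype.card_sigma]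
    simpa using hsum
  have hne : Nonempty ((S : Finset (Fin l)) × Fin (m S)) := by
    rw [← Fintype.card_pos_iff, hcard]
    exact hg
  have h5 : (2 : ℝ) ^ r ≤ ∏ S : (S : Finset (Fin l)) × Fin (m S),
        SR ((∏ i ∈ S.1, D i) * A) ((∏ i ∈ S.1, D i) * B) := by
    refine le_trans (b := ((∏ S : (S : Finset (Fin l)) × Fin (m S),
      Nat.card {c : SelQ (E ((∏ i ∈ S.1, D i) * A) ((∏ i ∈ S.1, D i) * B)) // c + c = 0} : ℕ) : ℝ))
      (by exact_mod_cast h3) ?_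
    rw [Nat.cast_prod]
    exact prod_le_prod (fun _ _ => Nat.cast_nonneg _) fun S _ => (hle S.1).2
  calc (2 : ℝ) ^ (e * r) = ((2 : ℝ) ^ r) ^ e := by
        rw [← pow_mul, mul_comm]
    _ ≤ (∏ S : (S : Finset (Fin l)) × Fin (m S),
        SR ((∏ i ∈ S.1, D i) * A) ((∏ i ∈ S.1, D i) * B)) ^ e :=
        pow_le_pow_left₀ (by positivity) h5 e
    _ = ∏ S : (S : Finset (Fin l)) × Fin (m S),
        SR ((∏ i ∈ S.1, D i) * A) ((∏ i ∈ S.1, D i) * B) ^ e := by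
        rw [prod_pow]
    _ ≤ (Fintype.card ((S : Finset (Fin l)) × Fin (m S)) : ℝ)⁻¹ *
        ∑ S : (S : Finset (Fin l)) × Fin (m S),
        (SR ((∏ i ∈ S.1, D i) * A) ((∏ i ∈ S.1, D i) * B) ^ e) ^
          Fintype.card ((S : Finset (Fin l)) × Fin (m S)) :=
        prod_le_mean _ fun S => pow_nonneg (SR_nonneg _ _) e
    _ ≤ 1 * ∑ S : (S : Finset (Fin l)) × Fin (m S),
        (SR ((∏ i ∈ S.1, D i) * A) ((∏ i ∈ S.1, D i) * B) ^ e) ^
          Fintype.card ((S : Finset (Fin l)) × Fin (m S)) := by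
        refine mul_le_mul_of_nonneg_right ?_ (sum_nonneg fun S _ =>
          pow_nonneg (pow_nonneg (SR_nonneg _ _) e) _)
        refine inv_le_one_of_one_le₀ ?_
        exact_mod_cast Fintype.card_pos
    _ ≤ _ := by
        rw [one_mul, hcard, Fintype.sum_sigma, mul_sum]
        refine sum_le_sum fun S _ => ?_
        simp only [sum_const, card_univ, Fintype.card_fin, nsmul_eq_mul]
        rw [← pow_mul]
        have hm : (m S : ℝ) ≤ g := by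
          have : m S ≤ ∑ S, m S := single_le_sum (fun _ _ => Nat.zero_le _) (mem_univ S)
          rw [hsum] at this
          exact_mod_cast this
        exact mul_le_mul_of_nonneg_right hm (pow_nonneg (SR_nonneg _ _) _)

/-- the sum over a finite set -/
theorem sumT (hlat : LAT) (hT : TWI) (hgrp : GRP) {l d : ℕ} (hd : 0 < d)
    {Ω : Type} (T : Finset Ω) (A B : Ω → ℤ) (D : Ω → Fin l → ℤ)
    (ρ : (Fin l → ℤˣ) →* (Matrix (Fin d) (Fin d) ℤ)ˣ) (K : ℝ) (e : ℕ) (r : Ω → ℕ)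
    (hA : ∀ ω ∈ T, A ω ≠ 0) (hB : ∀ ω ∈ T, B ω ≠ 0) (hAB : ∀ ω ∈ T, A ω ≠ B ω)
    (hD : ∀ ω ∈ T, ∀ i, D ω i ≠ 0)
    (hr : ∀ ω ∈ T, ∃ j : (Fin (r ω) → ZMod (2 ^ (l + 1))) →+ SelA (E (A ω) (B ω)) (D ω) ρ,
      Function.Injective j)
    (hs : ∀ s : Finset (Fin l), ∑ ω ∈ T,
      SR ((∏ i ∈ s, D ω i) * A ω) ((∏ i ∈ s, D ω i) * B ω) ^ (e * d) ≤ K) :
    ∑ ω ∈ T, (2 : ℝ) ^ (e * r ω) ≤ d * (2 ^ l * K) := by
  calc _ ≤ ∑ ω ∈ T, (d : ℝ) * ∑ s : Finset (Fin l),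
        SR ((∏ i ∈ s, D ω i) * A ω) ((∏ i ∈ s, D ω i) * B ω) ^ (e * d) := by
        refine sum_le_sum fun ω hω => ?_
        obtain ⟨j, hj⟩ := hr ω hω
        exact ptT hlat hT hgrp hd _ ρ (hA ω hω) (hB ω hω) (hAB ω hω) (hD ω hω) e (r ω) j hj
    _ ≤ (d : ℝ) * ∑ s : Finset (Fin l), K := by
        rw [← mul_sum, sum_comm]
        exact mul_le_mul_of_nonneg_left (sum_le_sum fun s _ => hs s) (Nat.cast_nonneg _)
    _ = d * (2 ^ l * K) := by
        rw [sum_const, card_univ, Fintype.card_finset, Fintype.card_fin, nsmul_eq_mul]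
        push_cast
        rfl

end Pool.Agent.W262.SQ
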