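import Mathlib
import Pool.Agent.W307.FK.Sha
import Pool.Agent.W262.SQ.Sum

/-!
# Project SQ: the 2-power Selmer groups of the twisted powers of all curves with full 2-torsion
-/

set_option autoImplicit false

namespace Pool.Agent.W262.SQ

open Finset Pool.Agent.W262.SH Pool.Agent.W307.FK

/-- the second moment of the number of the classes -/
theorem sr_fam (h : EXPF) : ∃ C : ℝ, 0 ≤ C ∧ ∀ D : ℤ, D ≠ 0 → ∀ Z : ℕ,
    ∑ t ∈ G.Fam Z, SR (D * t.1) (D * t.2) ^ 2 ≤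
      C * 128 ^ D.natAbs.primeFactors.card * (G.Fam Z).card := by
  obtain ⟨C, hC, hb⟩ := G.famg (Pool.Agent.W307.FK.regs_of h)
  refine ⟨C, hC, fun D hD Z => ?_⟩
  refine le_trans (le_of_eq (sum_congr rfl fun t _ => ?_)) (hb D hD Z)
  unfold SR G.nS
  rfl

/-- means over a set of twists -/
theorem mean_sr {I : Type} [Fintype I] [Nonempty I] (d : I → ℤ) (P : ℤ) (hP : P ≠ 0)
    (hd : ∀ i, d i ∣ P) {C : ℝ} (hC0 : 0 ≤ C) (hC : ∀ D : ℤ, D ≠ 0 → ∀ Z : ℕ,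
    ∑ t ∈ G.Fam Z, SR (D * t.1) (D * t.2) ^ 2 ≤
      C * 128 ^ D.natAbs.primeFactors.card * (G.Fam Z).card) (y : ℕ × ℕ → ℝ) (Z : ℕ)
    (hy : ∀ t ∈ G.Fam Z, (2 : ℝ) ^ (y t / Fintype.card I) ≤
      (Fintype.card I : ℝ)⁻¹ * ∑ i, SR (d i * t.1) (d i * t.2)) :
    ∑ t ∈ G.Fam Z, (4 : ℝ) ^ (y t / Fintype.card I) ≤
      C * 128 ^ P.natAbs.primeFactors.card * (G.Fam Z).card := by
  have hc : (0 : ℝ) < Fintype.card I := by exact_mod_cast Fintype.card_pos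
  have h1 : ∀ t ∈ G.Fam Z, (4 : ℝ) ^ (y t / Fintype.card I) ≤
      (Fintype.card I : ℝ)⁻¹ * ∑ i, SR (d i * t.1) (d i * t.2) ^ 2 := by
    intro t ht
    have e1 : (4 : ℝ) ^ (y t / Fintype.card I) = ((2 : ℝ) ^ (y t / Fintype.card I)) ^ 2 := by
      rw [← Real.rpow_natCast, ← Real.rpow_mul (by norm_num),
        mul_comm, Real.rpow_mul (by norm_num)]
      norm_num
    rw [e1]
    have h2 := pow_le_pow_left₀ (by positivity) (hy t ht) 2
    refine h2.trans ?_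
    rw [mul_pow]
    have h3 := sq_sum_le_card_mul_sum_sq (s := (univ : Finset I))
      (f := fun i => SR (d i * t.1) (d i * t.2))
    rw [card_univ] at h3
    calc (Fintype.card I : ℝ)⁻¹ ^ 2 * (∑ i, SR (d i * t.1) (d i * t.2)) ^ 2
        ≤ (Fintype.card I : ℝ)⁻¹ ^ 2 *
          (Fintype.card I * ∑ i, SR (d i * t.1) (d i * t.2) ^ 2) :=
          mul_le_mul_of_nonneg_left h3 (by positivity)
      _ = _ := by
          rw [sq, mul_assoc, ← mul_assoc ((Fintype.card I : ℝ)⁻¹) (Fintype.card I : ℝ),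
            inv_mul_cancel₀ hc.ne', one_mul]
  refine (sum_le_sum h1).trans ?_
  rw [← mul_sum, sum_comm]
  have h2 : ∀ i : I, ∑ t ∈ G.Fam Z, SR (d i * t.1) (d i * t.2) ^ 2 ≤
      C * 128 ^ P.natAbs.primeFactors.card * (G.Fam Z).card := by
    intro i
    have hi : d i ≠ 0 := fun h => hP (zero_dvd_iff.1 (h ▸ hd i))
    refine (hC (d i) hi Z).trans ?_
    refine mul_le_mul_of_nonneg_right (mul_le_mul_of_nonneg_left ?_ hC0) (Nat.cast_nonneg _)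
    refine pow_le_pow_right₀ (by norm_num) (card_le_card ?_)
    exact Nat.primeFactors_mono (Int.natAbs_dvd_natAbs.2 (hd i)) (Int.natAbs_ne_zero.2 hP)
  calc (Fintype.card I : ℝ)⁻¹ * ∑ i, ∑ t ∈ G.Fam Z, SR (d i * t.1) (d i * t.2) ^ 2
      ≤ (Fintype.card I : ℝ)⁻¹ * ∑ _i : I, C * 128 ^ P.natAbs.primeFactors.card *
        (G.Fam Z).card :=
        mul_le_mul_of_nonneg_left (sum_le_sum fun i _ => h2 i) (by positivity)
    _ = _ := by
        rw [sum_const, card_univ, nsmul_eq_mul, ← mul_assoc, inv_mul_cancel₀ hc.ne', one_mul]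

open scoped Classical in
/-- the pointwise bound for the twist of `E ^ g` -/
theorem ptU (hlat : LAT) (hT : TWI) (hgrp : GRP) {l g : ℕ} (hg : 0 < g)
    (D : Fin l → ℤ) (hD : ∀ i, D i ≠ 0) (ρ : (Fin l → ℤˣ) →* (Matrix (Fin g) (Fin g) ℤ)ˣ) :
    ∃ m : Finset (Fin l) → ℕ, ∑ S, m S = g ∧ ∀ A B : ℤ, A ≠ 0 → B ≠ 0 → A ≠ B → ∀ (r : ℕ)
    (j : (Fin r → ZMod (2 ^ (l + 1))) →+ SelA (E A B) D ρ), Function.Injective j →
    (2 : ℝ) ^ ((r : ℝ) / g) ≤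
      (g : ℝ)⁻¹ * ∑ i : (S : Finset (Fin l)) × Fin (m S),
        SR ((∏ k ∈ i.1, D k) * A) ((∏ k ∈ i.1, D k) * B) := by
  obtain ⟨m, M, N, hd⟩ := hlat l g ρ
  have hsum := hd.1
  refine ⟨m, hsum, fun A B hA hB hAB r j hj => ?_⟩
  have hS0 : ∀ S : Finset (Fin l), (∏ i ∈ S, D i) ≠ 0 := fun S =>
    prod_ne_zero_iff.2 fun i _ => hD i
  obtain ⟨Φ, hΦ⟩ := phiT hT l g D ρ m M N hd A B hA hB hAB hD
  have hle := fun S : Finset (Fin l) => selQ_le (mul_ne_zero (hS0 S) hA) (mul_ne_zero (hS0 S) hB)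
      (fun h => hAB (mul_left_cancel₀ (hS0 S) h))
  obtain ⟨hf, hc⟩ := card_two (fun S : (S : Finset (Fin l)) × Fin (m S) =>
    SelQ (E ((∏ i ∈ S.1, D i) * A) ((∏ i ∈ S.1, D i) * B))) (fun S => (hle S.1).1)
  have h3 := hgrp l r _ _ Φ hΦ j hj hf
  rw [hc] at h3
  have hcard : Fintype.card ((S : Finset (Fin l)) × Fin (m S)) = g := by
    rw [Fintype.card_sigma]
    simpa using hsum
  have hne : Nonempty ((S : Finset (Fin l)) × Fin (m S)) := by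
    rw [← Fintype.card_pos_iff, hcard]
    exact hg
  have h5 : (2 : ℝ) ^ r ≤ ∏ S : (S : Finset (Fin l)) × Fin (m S),
        SR ((∏ i ∈ S.1, D i) * A) ((∏ i ∈ S.1, D i) * B) := by
    refine le_trans (b := ((∏ S : (S : Finset (Fin l)) × Fin (m S),
      Nat.card {c : SelQ (E ((∏ i ∈ S.1, D i) * A) ((∏ i ∈ S.1, D i) * B)) // c + c = 0} : ℕ) : ℝ))
      (by exact_mod_cast h3) ?_
    rw [Nat.cast_prod]
    exact prod_le_prod (fun _ _ => Nat.cast_nonneg _) fun S _ => (hle S.1).2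
  have h6 := amgm (fun S : (S : Finset (Fin l)) × Fin (m S) =>
    SR ((∏ i ∈ S.1, D i) * A) ((∏ i ∈ S.1, D i) * B))
    (fun S => SR_nonneg _ _) (r : ℝ) (by
      rw [Real.rpow_natCast]
      exact h5)
  rw [hcard] at h6
  exact h6

open scoped Classical in
/-- the twisted powers of all curves -/
theorem selA_fam (h : EXPF) (hlat : LAT) (hT : TWI) (hgrp : GRP) :
    ∃ C : ℝ, 0 ≤ C ∧
    ∀ (l g : ℕ) (D : Fin l → ℤ) (ρ : (Fin l → ℤˣ) →* (Matrix (Fin g) (Fin g) ℤ)ˣ), 0 < g →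
    (∀ i, D i ≠ 0) → ∀ (Z : ℕ) (r : ℕ × ℕ → ℕ),
    (∀ t ∈ G.Fam Z, ∃ j : (Fin (r t) → ZMod (2 ^ (l + 1))) →+ SelA (E t.1 t.2) D ρ,
      Function.Injective j) →
    ∑ t ∈ G.Fam Z, (4 : ℝ) ^ ((r t : ℝ) / g) ≤
      C * 128 ^ (∏ i, D i).natAbs.primeFactors.card * (G.Fam Z).card := by
  obtain ⟨C, hC0, hC⟩ := sr_fam h
  refine ⟨C, hC0, fun l g D ρ hg hD Z r hr => ?_⟩
  have hP : ∏ i, D i ≠ 0 := prod_ne_zero_iff.2 fun i _ => hD i
  obtain ⟨m, hm, hpt⟩ := ptU hlat hT hgrp hg D hD ρ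
  have hcard : Fintype.card ((S : Finset (Fin l)) × Fin (m S)) = g := by
    rw [Fintype.card_sigma]
    simpa using hm
  have hne : Nonempty ((S : Finset (Fin l)) × Fin (m S)) := by
    rw [← Fintype.card_pos_iff, hcard]
    exact hg
  have h1 := mean_sr (fun i : (S : Finset (Fin l)) × Fin (m S) => ∏ k ∈ i.1, D k) (∏ i, D i) hP
    (fun i => prod_dvd_prod_of_subset _ _ _ (subset_univ i.1)) hC0 hC
    (fun t => (r t : ℝ)) Z (fun t ht => by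
      obtain ⟨n1, n2, n3⟩ := G.fam_ne ht
      obtain ⟨j, hj⟩ := hr t ht
      rw [hcard]
      exact hpt _ _ n1 n2 n3 (r t) j hj)
  rw [hcard] at h1
  exact h1

end Pool.Agent.W262.SQ
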