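import Mathlib
import Pool.Agent.W262.SH.DefC
import Pool.Agent.W262.SQ.Sel

/-!
# The 2-power Selmer group of twisted powers: compact definitions

Project SQ (helper262): the definitions used in the statements of the results. They agree with
those of `Sel.lean`.
-/

set_option autoImplicit false

namespace Pool.Agent.W262.SQ

open WeierstrassCurve Pool.Agent.W262.SH

/-- the locally trivial cocycles (in `A`) with values in `A[2^∞]` -/
def IsZT {n g : ℕ} (W : WeierstrassCurve ℚ) (D : Fin n → ℤ) (ρ : Rep n g)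
    (f : GQ → Pw W g QB) : Prop :=
  IsSA W D ρ f ∧ ∀ σ, IsT (f σ)

/-- the coboundaries of the elements of `A[2^∞]` -/
def IsBT {n g : ℕ} (W : WeierstrassCurve ℚ) (D : Fin n → ℤ) (ρ : Rep n g)
    (f : GQ → Pw W g QB) : Prop :=
  ∃ P, IsT P ∧ ∀ σ, f σ = gtw W D ρ σ P - P

theorem isZT_iff {n g : ℕ} (W : WeierstrassCurve ℚ) (D : Fin n → ℤ) (ρ : Rep n g)
    (f : GQ → Pw W g QB) : IsZT W D ρ f ↔ f ∈ zT W D ρ := by
  unfold IsZT
  rw [isSA_iff]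
  rfl

theorem isBT_iff {n g : ℕ} (W : WeierstrassCurve ℚ) (D : Fin n → ℤ) (ρ : Rep n g)
    (f : GQ → Pw W g QB) : IsBT W D ρ f ↔ f ∈ bT W D ρ := Iff.rfl

theorem isZT_zero {n g : ℕ} (W : WeierstrassCurve ℚ) (D : Fin n → ℤ) (ρ : Rep n g) :
    IsZT W D ρ 0 := (isZT_iff W D ρ 0).2 (zT W D ρ).zero_mem

theorem isZT_add {n g : ℕ} (W : WeierstrassCurve ℚ) (D : Fin n → ℤ) (ρ : Rep n g)
    {f h : GQ → Pw W g QB} (hf : IsZT W D ρ f) (hh : IsZT W D ρ h) : IsZT W D ρ (f + h) :=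
  (isZT_iff W D ρ _).2 ((zT W D ρ).add_mem ((isZT_iff W D ρ f).1 hf) ((isZT_iff W D ρ h).1 hh))

theorem isZT_neg {n g : ℕ} (W : WeierstrassCurve ℚ) (D : Fin n → ℤ) (ρ : Rep n g)
    {f : GQ → Pw W g QB} (hf : IsZT W D ρ f) : IsZT W D ρ (-f) :=
  (isZT_iff W D ρ _).2 ((zT W D ρ).neg_mem ((isZT_iff W D ρ f).1 hf))

theorem isBT_zero {n g : ℕ} (W : WeierstrassCurve ℚ) (D : Fin n → ℤ) (ρ : Rep n g) :
    IsBT W D ρ 0 := (bT W D ρ).zero_mem

theorem isBT_add {n g : ℕ} (W : WeierstrassCurve ℚ) (D : Fin n → ℤ) (ρ : Rep n g)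
    {f h : GQ → Pw W g QB} (hf : IsBT W D ρ f) (hh : IsBT W D ρ h) : IsBT W D ρ (f + h) :=
  (bT W D ρ).add_mem hf hh

theorem isBT_neg {n g : ℕ} (W : WeierstrassCurve ℚ) (D : Fin n → ℤ) (ρ : Rep n g)
    {f : GQ → Pw W g QB} (hf : IsBT W D ρ f) : IsBT W D ρ (-f) :=
  (bT W D ρ).neg_mem hf

/-- the group of the locally trivial cocycles with values in `A[2^∞]` -/
noncomputable def ZAT {n g : ℕ} (W : WeierstrassCurve ℚ) (D : Fin n → ℤ) (ρ : Rep n g) :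
    AddSubgroup (GQ → Pw W g QB) :=
  mkSub (IsZT W D ρ) (isZT_zero W D ρ) (isZT_add W D ρ) (isZT_neg W D ρ)

/-- the group of the coboundaries of the elements of `A[2^∞]` -/
noncomputable def BAT {n g : ℕ} (W : WeierstrassCurve ℚ) (D : Fin n → ℤ) (ρ : Rep n g) :
    AddSubgroup (GQ → Pw W g QB) :=
  mkSub (IsBT W D ρ) (isBT_zero W D ρ) (isBT_add W D ρ) (isBT_neg W D ρ)

/-- the Selmer group `Sel_{2^∞}(A/ℚ)` -/
abbrev SelAb {n g : ℕ} (W : WeierstrassCurve ℚ) (D : Fin n → ℤ) (ρ : Rep n g) : Type :=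
  Qt (ZAT W D ρ) (BAT W D ρ)

theorem has_selAb {n g : ℕ} (W : WeierstrassCurve ℚ) (D : Fin n → ℤ) (ρ : Rep n g) (q r : ℕ) :
    HasZ (SelAb W D ρ) q r ↔ ∃ j : (Fin r → ZMod q) →+ SelA W D ρ, Function.Injective j := by
  have h : ZAT W D ρ = zT W D ρ := by
    ext f
    exact isZT_iff W D ρ f
  have h2 : ∀ S : AddSubgroup (GQ → Pw W g QB), S = zT W D ρ →
      (HasZ (Qt S (BAT W D ρ)) q r ↔
      ∃ j : (Fin r → ZMod q) →+ SelA W D ρ, Function.Injective j) := by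
    rintro S rfl
    rfl
  exact h2 _ h

end Pool.Agent.W262.SQ
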